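import Mathlib
import Pool.Agent.Helper82.TotSep.P.Equality
import Pool.Agent.Helper82.TotSep.P.Fat

/-!
# Total separability of simple polytopes: definitions for the upper bound

Everything lives in a fixed face `F` (a finset of nodes) of dimension `k + 1` of a simple polytope
given by its `FaceData`; `M` is the separating set and `lab` a labelling of the nodes which is
constant along the edges of `F` outside `M`.
-/

namespace Pool.Agent.Helper13.TSD

open Finset Pool.Agent.Helper82.TotSep

variable {V : Type*} {G : SimpleGraph V} {d : ℕ} {Λ : Type*}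

open Classical in
/-- the facets of `F` (faces of dimension `k`) through the node `w` -/
noncomputable def thr (L : FaceData G d) (k : ℕ) (F : Finset V) (w : V) : Finset (Finset V) :=
  (facets L k F).filter fun H => w ∈ H

open Classical in
/-- the facets of `F` through the nodes `v` and `w` -/
noncomputable def com (L : FaceData G d) (k : ℕ) (F : Finset V) (v w : V) :
    Finset (Finset V) :=
  (facets L k F).filter fun H => v ∈ H ∧ w ∈ H

/-- the facet of `F` at `w` which does not contain the edge of direction `l` -/
noncomputable def opp [Fintype V] (L : FaceData G d) (F : Finset V) (w : V) (l : Fin d) :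
    Finset V :=
  faceOf L w ((dir L F w).erase l)

open Classical in
/-- the number of neighbours of `v` in `F` which lie in `a` -/
noncomputable def ent (L : FaceData G d) (F : Finset V) (v : V) (a : Finset V) : ℕ :=
  ((dir L F v).filter fun l => L.nb v l ∈ a).card

open Classical in
/-- the real facets of `F`: those with at least two labels -/
noncomputable def rfc (L : FaceData G d) (M : Finset V) (lab : V → Λ) (k : ℕ) (F : Finset V) :
    Finset (Finset V) :=
  (facets L k F).filter fun H => 2 ≤ (labs M lab H).card

open Classical in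
/-- the real facets of `F` which contain the label `c` -/
noncomputable def Zs (L : FaceData G d) (M : Finset V) (lab : V → Λ) (k : ℕ) (F : Finset V)
    (c : Λ) : Finset (Finset V) :=
  (facets L k F).filter fun H => 2 ≤ (labs M lab H).card ∧ c ∈ labs M lab H

open Classical in
/-- the good seers of `c`: nodes of `M` in `F` which see `c` and at least two other labels -/
noncomputable def gs (L : FaceData G d) (M : Finset V) (lab : V → Λ) (F : Finset V) (c : Λ) :
    Finset V :=
  (seers L M lab F c).filter fun w => 3 ≤ (eqSeen L M lab F w).card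

/-- a nice label lies in exactly `k + 1` real facets and has at least two good seers -/
def Nice (L : FaceData G d) (M : Finset V) (lab : V → Λ) (k : ℕ) (F : Finset V) (c : Λ) : Prop :=
  (Zs L M lab k F c).card = k + 1 ∧ 2 ≤ (gs L M lab F c).card

/-- `a` is the only real facet with the label `c` which does not contain `v` -/
def Miss (L : FaceData G d) (M : Finset V) (lab : V → Λ) (k : ℕ) (F : Finset V) (c : Λ) (v : V)
    (a : Finset V) : Prop :=
  a ∈ Zs L M lab k F c ∧ v ∉ a ∧ ∀ H ∈ Zs L M lab k F c, v ∉ H → H = a

open Classical in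
/-- the class `a` at `v`: the nice labels `c` for which `v` is a good seer and `a` is the only
real facet with the label `c` which does not contain `v` -/
noncomputable def cls (L : FaceData G d) (M : Finset V) (lab : V → Λ) (k : ℕ) (F : Finset V)
    (v : V) (a : Finset V) : Finset Λ :=
  (labs M lab F).filter fun c => Nice L M lab k F c ∧ v ∈ gs L M lab F c ∧ Miss L M lab k F c v a

open Classical in
/-- the ordered pairs of different labels which are in the same class at some node -/
noncomputable def prs (L : FaceData G d) (M : Finset V) (lab : V → Λ) (k : ℕ) (F : Finset V) :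
    Finset (Λ × Λ) :=
  (labs M lab F ×ˢ labs M lab F).filter fun p => p.1 ≠ p.2 ∧
    ∃ v a, p.1 ∈ cls L M lab k F v a ∧ p.2 ∈ cls L M lab k F v a

open Classical in
/-- the big facets: those with more than half of the nodes of `M` -/
noncomputable def big (L : FaceData G d) (M : Finset V) (k : ℕ) (F : Finset V) :
    Finset (Finset V) :=
  (facets L k F).filter fun H => (inner M F).card < 2 * (inner M H).card

/-- `n σ`, where `σ` is the sum of `μ (1 - μ)` over all facets -/
noncomputable def sg (L : FaceData G d) (M : Finset V) (k : ℕ) (F : Finset V) : ℝ :=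
  ∑ H ∈ facets L k F, ((inner M H).card : ℝ) *
    (((inner M F).card : ℝ) - (inner M H).card) / (inner M F).card

/-- the labelling is constant along the edges of `F` outside `M` -/
def LabOn (G : SimpleGraph V) (M : Finset V) (lab : V → Λ) (F : Finset V) : Prop :=
  ∀ x y, G.Adj x y → x ∈ F → y ∈ F → x ∉ M → y ∉ M → lab x = lab y

/-- The standing assumptions: `F` is a face of dimension `k + 1`, the labelling is constant along
the edges of `F` outside `M`, there are at least two labels in `F`, and every node of `M` in `F`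
sees at least two labels in `F`. -/
structure Ctx (L : FaceData G d) (M : Finset V) (lab : V → Λ) (k : ℕ) (F : Finset V) : Prop where
  face : IsFace L (k + 1) F
  labOn : LabOn G M lab F
  two : 2 ≤ (labs M lab F).card
  sees : ∀ w ∈ M, w ∈ F → 2 ≤ (eqSeen L M lab F w).card

/-- First type of pairs: `w` sees at most two labels, one of them is `c`, exactly two facets `a`,
`b` of `Zs c` do not contain `w`; `v` is a good seer of `c` and of `c'` which misses `a`, and
`b = opp v i'` where `c'` is the label of `nb v i'`. -/
def Alpha [Fintype V] (L : FaceData G d) (M : Finset V) (lab : V → Λ) (k : ℕ) (F : Finset V)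
    (c c' : Λ) (w : V) (a : Finset V) : Prop :=
  w ∈ inner M F ∧ (eqSeen L M lab F w).card ≤ 2 ∧ c ∈ eqSeen L M lab F w ∧
    a ∈ Zs L M lab k F c ∧ w ∉ a ∧ ∃ b ∈ Zs L M lab k F c, b ≠ a ∧ w ∉ b ∧
      (∀ H ∈ Zs L M lab k F c, w ∉ H → H = a ∨ H = b) ∧
      ∃ v, c ∈ cls L M lab k F v a ∧ ∃ i' ∈ dir L F v, L.nb v i' ∉ M ∧
        lab (L.nb v i') = c' ∧ b = opp L F v i'

/-- Second type of pairs: `w` and `w'` see at most two labels, `w` sees `c`, `w'` sees `c'`,
exactly one facet of `Zs c` does not contain `w`, and `w'` lies in all the others. -/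
def Beta (L : FaceData G d) (M : Finset V) (lab : V → Λ) (k : ℕ) (F : Finset V) (c c' : Λ)
    (w w' : V) : Prop :=
  w ∈ inner M F ∧ w' ∈ inner M F ∧ (eqSeen L M lab F w).card ≤ 2 ∧
    (eqSeen L M lab F w').card ≤ 2 ∧ c ∈ eqSeen L M lab F w ∧ c' ∈ eqSeen L M lab F w' ∧
    Nice L M lab k F c ∧
    ∃ b ∈ Zs L M lab k F c, w ∉ b ∧ ∀ H ∈ Zs L M lab k F c, H ≠ b → w ∈ H ∧ w' ∈ H

open Classical in
/-- labels with many seers which see at most two labels -/
noncomputable def K1 (L : FaceData G d) (M : Finset V) (lab : V → Λ) (k : ℕ) (F : Finset V) :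
    Finset Λ :=
  (labs M lab F).filter fun c =>
    k + 1 ≤ 4 * ((seers L M lab F c).filter fun w => (eqSeen L M lab F w).card ≤ 2).card

open Classical in
/-- nice labels with many real facets which are not big -/
noncomputable def K3 (L : FaceData G d) (M : Finset V) (lab : V → Λ) (k : ℕ) (F : Finset V) :
    Finset Λ :=
  (labs M lab F).filter fun c => c ∉ K1 L M lab k F ∧ Nice L M lab k F c ∧
    k + 1 < 4 * ((Zs L M lab k F c).filter fun H => H ∉ big L M k F).card

open Classical in
/-- nice labels with few real facets which are not big -/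
noncomputable def K4 (L : FaceData G d) (M : Finset V) (lab : V → Λ) (k : ℕ) (F : Finset V) :
    Finset Λ :=
  (labs M lab F).filter fun c => c ∉ K1 L M lab k F ∧ Nice L M lab k F c ∧
    4 * ((Zs L M lab k F c).filter fun H => H ∉ big L M k F).card ≤ k + 1

/-- the bound -/
noncomputable def bd (j n : ℕ) : ℝ := 30 * n * (1 / √(j : ℝ) + Real.log n / j)

lemma mem_thr {L : FaceData G d} {k : ℕ} {F H : Finset V} {w : V} :
    H ∈ thr L k F w ↔ H ∈ facets L k F ∧ w ∈ H := by
  simp [thr]

lemma mem_com {L : FaceData G d} {k : ℕ} {F H : Finset V} {v w : V} :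
    H ∈ com L k F v w ↔ H ∈ facets L k F ∧ v ∈ H ∧ w ∈ H := by
  simp [com]

lemma mem_rfc {L : FaceData G d} {M : Finset V} {lab : V → Λ} {k : ℕ} {F H : Finset V} :
    H ∈ rfc L M lab k F ↔ H ∈ facets L k F ∧ 2 ≤ (labs M lab H).card := by
  simp [rfc]

lemma mem_Zs {L : FaceData G d} {M : Finset V} {lab : V → Λ} {k : ℕ} {F H : Finset V} {c : Λ} :
    H ∈ Zs L M lab k F c ↔ H ∈ facets L k F ∧ 2 ≤ (labs M lab H).card ∧ c ∈ labs M lab H := by
  simp [Zs]

lemma mem_gs {L : FaceData G d} {M : Finset V} {lab : V → Λ} {F : Finset V} {c : Λ} {w : V} :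
    w ∈ gs L M lab F c ↔ w ∈ seers L M lab F c ∧ 3 ≤ (eqSeen L M lab F w).card := by
  simp [gs]

lemma mem_cls {L : FaceData G d} {M : Finset V} {lab : V → Λ} {k : ℕ} {F : Finset V} {v : V}
    {a : Finset V} {c : Λ} : c ∈ cls L M lab k F v a ↔ c ∈ labs M lab F ∧ Nice L M lab k F c ∧
      v ∈ gs L M lab F c ∧ Miss L M lab k F c v a := by
  simp [cls]

lemma mem_prs {L : FaceData G d} {M : Finset V} {lab : V → Λ} {k : ℕ} {F : Finset V}
    {p : Λ × Λ} : p ∈ prs L M lab k F ↔ (p.1 ∈ labs M lab F ∧ p.2 ∈ labs M lab F) ∧ p.1 ≠ p.2 ∧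
      ∃ v a, p.1 ∈ cls L M lab k F v a ∧ p.2 ∈ cls L M lab k F v a := by
  simp [prs]

lemma mem_big {L : FaceData G d} {M : Finset V} {k : ℕ} {F H : Finset V} :
    H ∈ big L M k F ↔ H ∈ facets L k F ∧ (inner M F).card < 2 * (inner M H).card := by
  simp [big]

lemma LabOn.mono {M : Finset V} {lab : V → Λ} {F H : Finset V} (h : LabOn G M lab F)
    (hHF : H ⊆ F) : LabOn G M lab H :=
  fun x y hxy hx hy hxM hyM => h x y hxy (hHF hx) (hHF hy) hxM hyM

end Pool.Agent.Helper13.TSD
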