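import Mathlib
import Pool.Agent.Helper13.TSD.Defs

/-!
# TSD-DA: big facets
-/

namespace Pool.Agent.Helper13.TSD

open Finset Pool.Agent.Helper82.TotSep

variable {V : Type*} [Fintype V] {G : SimpleGraph V} {d : ℕ} {L : FaceData G d} {k : ℕ}
  {F : Finset V}

private theorem card_inner_le {H : Finset V} (M : Finset V) (h : H ∈ facets L k F) :
    (inner M H).card ≤ (inner M F).card :=
  card_le_card fun x hx => by
    rw [mem_inner] at hx ⊢
    exact ⟨(mem_facets.mp h).1 hx.1, hx.2⟩

private theorem term_nonneg {H : Finset V} (M : Finset V) (h : H ∈ facets L k F) :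
    0 ≤ ((inner M H).card : ℝ) * (((inner M F).card : ℝ) - (inner M H).card) /
      (inner M F).card := by
  have h1 : ((inner M H).card : ℝ) ≤ (inner M F).card := by
    exact_mod_cast card_inner_le M h
  exact div_nonneg (mul_nonneg (Nat.cast_nonneg _) (by linarith)) (Nat.cast_nonneg _)

theorem sg_nonneg (M : Finset V) : 0 ≤ sg L M k F :=
  sum_nonneg fun _ hH => term_nonneg M hH

private theorem le_sg (M : Finset V) {S : Finset (Finset V)} (hS : S ⊆ facets L k F)
    (c : Finset V → ℝ) (hc : ∀ H ∈ S, c H ≤ 2 * (((inner M H).card : ℝ) *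
      (((inner M F).card : ℝ) - (inner M H).card) / (inner M F).card)) :
    ∑ H ∈ S, c H ≤ 2 * sg L M k F := by
  unfold sg
  rw [mul_sum]
  refine (sum_le_sum hc).trans (sum_le_sum_of_subset_of_nonneg hS fun H hH _ => ?_)
  exact mul_nonneg (by norm_num) (term_nonneg M hH)

open Classical in
/-- The sum over `v` of the number of big facets which do not contain `v` is the sum over the big
facets of `n - n_H`, and `n - n_H ≤ 2 n_H (n - n_H) / n`. -/
theorem sum_big_notMem (M : Finset V) :
    (∑ v ∈ inner M F, ((big L M k F).filter fun H => v ∉ H).card : ℝ) ≤ 2 * sg L M k F := by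
  have h1 : ∑ v ∈ inner M F, ((big L M k F).filter fun H => v ∉ H).card =
      ∑ H ∈ big L M k F, ((inner M F).filter fun v => v ∉ H).card :=
    sum_card_bipartiteAbove_eq_sum_card_bipartiteBelow (fun v H => v ∉ H)
  have h2 : ∑ v ∈ inner M F, (((big L M k F).filter fun H => v ∉ H).card : ℝ) =
      ∑ H ∈ big L M k F, (((inner M F).filter fun v => v ∉ H).card : ℝ) := by
    exact_mod_cast h1
  rw [h2]
  refine le_sg M (fun H hH => (mem_big.mp hH).1) _ fun H hH => ?_
  obtain ⟨hf, hb⟩ := mem_big.mp hH
  have h3 : ((inner M F).filter fun v => v ∉ H).card + (inner M H).card =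
      (inner M F).card := by
    rw [← card_filter_add_card_filter_not (s := inner M F) (fun v => v ∉ H)]
    congr 2
    ext x
    simp only [mem_filter, mem_inner, not_not]
    exact ⟨fun h => ⟨⟨(mem_facets.mp hf).1 h.1, h.2⟩, h.1⟩, fun h => ⟨h.2, h.1.2⟩⟩
  have h4 : (((inner M F).filter fun v => v ∉ H).card : ℝ) =
      ((inner M F).card : ℝ) - (inner M H).card := by
    rw [← h3]; push_cast; ring
  rw [h4]
  have hle : ((inner M H).card : ℝ) ≤ (inner M F).card := by
    exact_mod_cast card_inner_le M hf
  have hb' : ((inner M F).card : ℝ) < 2 * (inner M H).card := by exact_mod_cast hb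
  have hn : (0 : ℝ) < (inner M F).card := by
    have : (0 : ℝ) ≤ (inner M F).card := Nat.cast_nonneg _
    linarith
  rw [← mul_div_assoc, le_div_iff₀ hn]
  nlinarith

open Classical in
/-- The sum over `v` of the number of facets through `v` which are not big is the sum over these
facets of `n_H`, and `n_H ≤ 2 n_H (n - n_H) / n`. -/
theorem sum_thr_notBig (M : Finset V) :
    (∑ v ∈ inner M F, ((thr L k F v).filter fun H => H ∉ big L M k F).card : ℝ) ≤
      2 * sg L M k F := by
  have h1 : ∑ v ∈ inner M F,
      (((facets L k F).filter fun H => H ∉ big L M k F).filter fun H => v ∈ H).card =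
      ∑ H ∈ (facets L k F).filter fun H => H ∉ big L M k F,
        ((inner M F).filter fun v => v ∈ H).card :=
    sum_card_bipartiteAbove_eq_sum_card_bipartiteBelow (fun v H => v ∈ H)
  have h0 : ∀ v, ((thr L k F v).filter fun H => H ∉ big L M k F).card =
      (((facets L k F).filter fun H => H ∉ big L M k F).filter fun H => v ∈ H).card := by
    intro v
    congr 1
    ext H
    simp only [mem_filter, mem_thr]
    tauto
  have h2 : ∑ v ∈ inner M F, (((thr L k F v).filter fun H => H ∉ big L M k F).card : ℝ) =
      ∑ H ∈ (facets L k F).filter fun H => H ∉ big L M k F,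
        (((inner M F).filter fun v => v ∈ H).card : ℝ) := by
    simp only [h0]
    exact_mod_cast h1
  rw [h2]
  refine le_sg M (filter_subset _ _) _ fun H hH => ?_
  obtain ⟨hf, hb⟩ := mem_filter.mp hH
  have h3 : (inner M F).filter (fun v => v ∈ H) = inner M H := by
    ext x
    simp only [mem_filter, mem_inner]
    exact ⟨fun h => ⟨h.2, h.1.2⟩, fun h => ⟨⟨(mem_facets.mp hf).1 h.1, h.2⟩, h.1⟩⟩
  rw [h3]
  have hb' : 2 * (inner M H).card ≤ (inner M F).card := by
    by_contra hcon
    exact hb (mem_big.mpr ⟨hf, by omega⟩)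
  have hb2 : 2 * ((inner M H).card : ℝ) ≤ (inner M F).card := by exact_mod_cast hb'
  have hm : (0 : ℝ) ≤ (inner M H).card := Nat.cast_nonneg _
  rcases (Nat.cast_nonneg (inner M F).card : (0 : ℝ) ≤ (inner M F).card).eq_or_lt with hn | hn
  · have : ((inner M H).card : ℝ) = 0 := by linarith
    rw [this]; simp
  · rw [← mul_div_assoc, le_div_iff₀ hn]
    nlinarith

end Pool.Agent.Helper13.TSD
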