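import Mathlib
import Pool.Agent.Helper13.TSD.Defs

/-!
# TSD-FA: facets at a node (use `ft_mem_G`, `ft_facet_iff`, `ft_inj` of Helper82/TotSep/P/Fat.lean)
-/

namespace Pool.Agent.Helper13.TSD

open Finset Pool.Agent.Helper82.TotSep

variable {V : Type*} [Fintype V] {G : SimpleGraph V} {d : ℕ} {L : FaceData G d} {k : ℕ}
  {F : Finset V}

/-- Membership in `opp`. -/
theorem mem_opp (hF : IsFace L (k + 1) F) {w x : V} (hw : w ∈ F) (hx : x ∈ F) {l : Fin d} :
    x ∈ opp L F w l ↔ l ∉ L.supp w x := ft_mem_G hF hw hx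

theorem opp_mem_thr (hF : IsFace L (k + 1) F) {w : V} (hw : w ∈ F) {l : Fin d}
    (hl : l ∈ dir L F w) : opp L F w l ∈ thr L k F w :=
  mem_thr.mpr ((ft_facet_iff hF hw).mpr ⟨l, hl, rfl⟩)

theorem exists_opp (hF : IsFace L (k + 1) F) {w : V} (hw : w ∈ F) {H : Finset V}
    (hH : H ∈ thr L k F w) : ∃ l ∈ dir L F w, opp L F w l = H :=
  (ft_facet_iff hF hw).mp (mem_thr.mp hH)

theorem opp_inj {w : V} {l l' : Fin d} (hl : l ∈ dir L F w) (h : opp L F w l = opp L F w l') :
    l = l' := ft_inj hl h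

/-- A neighbour `nb w i` in `F` lies in `opp w l` if and only if `l ≠ i`. -/
theorem nb_mem_opp (hF : IsFace L (k + 1) F) {w : V} (hw : w ∈ F) {i l : Fin d}
    (hi : i ∈ dir L F w) : L.nb w i ∈ opp L F w l ↔ l ≠ i := by
  rw [mem_opp hF hw (mem_dir.mp hi), L.supp_nb, Finset.mem_singleton]

/-- Exactly `k + 1` facets pass through a node. -/
theorem card_thr (hF : IsFace L (k + 1) F) {w : V} (hw : w ∈ F) :
    (thr L k F w).card = k + 1 := by
  classical
  have h : thr L k F w = (dir L F w).image (opp L F w) := by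
    ext H
    rw [Finset.mem_image]
    exact ⟨fun hH => exists_opp hF hw hH, fun ⟨l, hl, h⟩ => h ▸ opp_mem_thr hF hw hl⟩
  rw [h, Finset.card_image_of_injOn (fun l hl l' _ hll => opp_inj hl hll), hF.card_dir hw]

/-- The facets through `v` and `w` are the `opp v l`, `l ∈ dir v`, `l ∉ supp v w`. -/
theorem card_com (hF : IsFace L (k + 1) F) {v w : V} (hv : v ∈ F) (hw : w ∈ F) :
    (com L k F v w).card + (L.supp v w).card = k + 1 := by
  classical
  have h : com L k F v w = (dir L F v \ L.supp v w).image (opp L F v) := by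
    ext H
    rw [Finset.mem_image, mem_com]
    constructor
    · rintro ⟨h1, h2, h3⟩
      obtain ⟨l, hl, rfl⟩ := exists_opp hF hv (mem_thr.mpr ⟨h1, h2⟩)
      exact ⟨l, Finset.mem_sdiff.mpr ⟨hl, (mem_opp hF hv hw).mp h3⟩, rfl⟩
    · rintro ⟨l, hl, rfl⟩
      rw [Finset.mem_sdiff] at hl
      have h1 := mem_thr.mp (opp_mem_thr hF hv hl.1)
      exact ⟨h1.1, h1.2, (mem_opp hF hv hw).mpr hl.2⟩
  have hinj : Set.InjOn (opp L F v) ↑(dir L F v \ L.supp v w) := by
    intro l hl l' _ hll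
    exact opp_inj (Finset.mem_sdiff.mp (Finset.mem_coe.mp hl)).1 hll
  rw [h, Finset.card_image_of_injOn hinj, Finset.card_sdiff_add_card_eq_card
    (hF.supp_subset hv hw), hF.card_dir hv]

end Pool.Agent.Helper13.TSD
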