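import Mathlib
import Pool.Agent.Helper13.TSD.FA

/-!
# TSD-FC1: neighbours and facets
-/

namespace Pool.Agent.Helper13.TSD

open Finset Pool.Agent.Helper82.TotSep

variable {V : Type*} [Fintype V] {G : SimpleGraph V} {d : ℕ} {L : FaceData G d} {k : ℕ}
  {F : Finset V}

open Classical in
/-- the facets through the neighbour `nb v l` which do not contain `v` -/
private lemma fc1_le_one (hF : IsFace L (k + 1) F) {v : V} (hv : v ∈ F) (A : Finset (Finset V))
    (hA : ∀ a ∈ A, a ∈ facets L k F ∧ v ∉ a) {l : Fin d} (hl : l ∈ dir L F v) :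
    (A.filter fun a => L.nb v l ∈ a).card ≤ 1 := by
  have hx : L.nb v l ∈ F := mem_dir.mp hl
  have h1 := card_com hF hv hx
  rw [L.supp_nb, Finset.card_singleton] at h1
  have h2 := card_thr hF hx
  have hsub : com L k F v (L.nb v l) ⊆ thr L k F (L.nb v l) := by
    intro H hH
    rw [mem_com] at hH
    exact mem_thr.mpr ⟨hH.1, hH.2.2⟩
  have hle : (A.filter fun a => L.nb v l ∈ a) ⊆
      thr L k F (L.nb v l) \ com L k F v (L.nb v l) := by
    intro a ha
    rw [Finset.mem_filter] at ha
    rw [Finset.mem_sdiff, mem_thr, mem_com]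
    exact ⟨⟨(hA a ha.1).1, ha.2⟩, fun h => (hA a ha.1).2 h.2.1⟩
  have h3 := Finset.card_le_card hle
  rw [Finset.card_sdiff_of_subset hsub] at h3
  omega

/-- Every neighbour of `v` in `F` lies in exactly one facet which does not contain `v`
(`card_com` with `supp v (nb v l) = {l}` gives `k` common facets, `card_thr` for `nb v l` gives
`k + 1`), and `F` contains `k + 1` neighbours of `v`.  Exchange the two sums. -/
theorem sum_ent (hF : IsFace L (k + 1) F) {v : V} (hv : v ∈ F) (A : Finset (Finset V))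
    (hA : ∀ a ∈ A, a ∈ facets L k F ∧ v ∉ a) : ∑ a ∈ A, ent L F v a ≤ k + 1 := by
  classical
  have h1 : ∀ a ∈ A, ent L F v a = ∑ l ∈ dir L F v, if L.nb v l ∈ a then 1 else 0 := by
    intro a _
    rw [ent, Finset.card_filter]
  rw [Finset.sum_congr rfl h1, Finset.sum_comm]
  calc ∑ l ∈ dir L F v, ∑ a ∈ A, (if L.nb v l ∈ a then 1 else 0)
      ≤ ∑ l ∈ dir L F v, 1 := by
        refine Finset.sum_le_sum fun l hl => ?_
        rw [← Finset.card_filter]
        exact fc1_le_one hF hv A hA hl
    _ = k + 1 := by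
        rw [Finset.sum_const, smul_eq_mul, mul_one, hF.card_dir hv]

end Pool.Agent.Helper13.TSD
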