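import Mathlib
import Pool.Agent.Helper13.TSD.Defs

/-!
# TSD-LA: seers of a label, the trivial bound
-/

namespace Pool.Agent.Helper13.TSD

open Finset Pool.Agent.Helper82.TotSep

variable {V : Type*} {G : SimpleGraph V} {d : ℕ} {Λ : Type*} {L : FaceData G d}
  {M : Finset V} {lab : V → Λ}

/-- Balinski: a label has at least `j` seers in a face of dimension `j`.  Copy of
`Pool.Agent.Helper82.TotSep.eq_card_seers` with the local hypothesis `LabOn`. -/
theorem card_seers {j : ℕ} {F : Finset V} (hlab : LabOn G M lab F) (hF : IsFace L j F)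
    (h2 : 2 ≤ (labs M lab F).card) {c : Λ} (hc : c ∈ labs M lab F) :
    j ≤ (seers L M lab F c).card := by
  by_contra hlt
  push Not at hlt
  obtain ⟨x0, hx0F, hx0M, hx0⟩ := mem_labs.mp hc
  obtain ⟨b, hb, hba⟩ := Finset.exists_mem_ne (s := labs M lab F) (by omega) c
  obtain ⟨x1, hx1F, hx1M, hx1⟩ := mem_labs.mp hb
  have key : ∀ x y, G.Adj x y → x ∈ F → y ∈ F → y ∉ seers L M lab F c → x ∉ M ∧ lab x = c →
      y ∉ M ∧ lab y = c := by
    intro x y hxy hx hy hyT hxC
    by_cases hyM : y ∈ M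
    · exfalso
      apply hyT
      rw [mem_seers]
      refine ⟨hy, hyM, ?_⟩
      rw [← hxC.2]
      exact eq_sees_of_adj hxy hx hxC.1
    · exact ⟨hyM, by rw [← hlab x y hxy hx hy hxC.1 hyM]; exact hxC.2⟩
  have h := (hF.conn (seers L M lab F c) {x | x ∉ M ∧ lab x = c} hlt
    (fun x y hxy hx hy hxT hyT => ⟨key x y hxy hx hy hyT, key y x hxy.symm hy hx hxT⟩)
    hx0F hx1F (fun h => hx0M (mem_seers.mp h).2.1) (fun h => hx1M (mem_seers.mp h).2.1)).mp
    ⟨hx0M, hx0⟩
  exact hba (hx1.symm.trans h.2)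

/-- The trivial bound: `j * #labels ≤ ∑ #seers = ∑ #seen ≤ j * #M` (`sum_seers`,
`card_eqSeen_le`); for `j = 0` a face has only one node (`supp v x ⊆ ∅`, `L.eq_self`) so there
are not two labels. -/
theorem card_labs_le {j : ℕ} {F : Finset V} (hlab : LabOn G M lab F) (hF : IsFace L j F)
    (h2 : 2 ≤ (labs M lab F).card) : (labs M lab F).card ≤ (inner M F).card := by
  classical
  have hj : 1 ≤ j := by
    by_contra hj
    obtain ⟨a, ha, b, hb, hne⟩ := Finset.one_lt_card.mp (show 1 < (labs M lab F).card by omega)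
    obtain ⟨x, hxF, hxM, hx⟩ := mem_labs.mp ha
    obtain ⟨y, hyF, hyM, hy⟩ := mem_labs.mp hb
    have h1 := hF.supp_subset hxF hyF
    have h2 := hF.card_dir hxF
    have h3 : dir L F x = ∅ := Finset.card_eq_zero.mp (by omega)
    rw [h3, Finset.subset_empty] at h1
    have h4 := L.eq_self x y h1
    apply hne
    rw [← hx, ← hy, h4]
  have hA : (labs M lab F).card * j ≤ ∑ a ∈ labs M lab F, (seers L M lab F a).card := by
    rw [← smul_eq_mul, ← Finset.sum_const]
    exact Finset.sum_le_sum fun a ha => card_seers hlab hF h2 ha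
  have hB : ∑ w ∈ inner M F, (eqSeen L M lab F w).card ≤ (inner M F).card * j := by
    rw [← smul_eq_mul, ← Finset.sum_const]
    exact Finset.sum_le_sum fun w hw => card_eqSeen_le hF (mem_inner.mp hw).1
  rw [sum_seers] at hA
  exact Nat.le_of_mul_le_mul_right (hA.trans hB) hj

end Pool.Agent.Helper13.TSD
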