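import Mathlib
import Pool.Agent.Helper13.TSD.FA

/-!
# TSD-FB: edges and faces of dimension two
-/

namespace Pool.Agent.Helper13.TSD

open Finset Pool.Agent.Helper82.TotSep

variable {V : Type*} [Fintype V] {G : SimpleGraph V} {d : ℕ} {L : FaceData G d} {k : ℕ}
  {F : Finset V}

omit [Fintype V] in
private theorem supp_le_singleton {v x : V} {i : Fin d} (h : ∀ l ∈ L.supp v x, l = i) :
    x = v ∨ x = L.nb v i := by
  have h1 : L.supp v x ⊆ {i} := fun l hl => mem_singleton.mpr (h l hl)
  rcases subset_singleton_iff.mp h1 with h2 | h2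
  · exact Or.inl (L.eq_self v x h2)
  · exact Or.inr (L.eq_nb v x i h2)

/-- A node which lies in all facets through the edge of direction `i` at `v` is an end of this
edge.  Proof: for `l ∈ supp v x`, `l ≠ i`, the facet `opp v l` is a facet through `v` different
from `opp v i`, so it contains `x`, against `mem_opp`.  Hence `supp v x` is contained in `{i}`;
use `L.eq_self` and `L.eq_nb`. -/
theorem eq_or_eq_nb (hF : IsFace L (k + 1) F) {v x : V} (hv : v ∈ F) {i : Fin d}
    (hi : i ∈ dir L F v) (hx : x ∈ F)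
    (h : ∀ H ∈ thr L k F v, H ≠ opp L F v i → x ∈ H) : x = v ∨ x = L.nb v i := by
  refine supp_le_singleton fun l hl => ?_
  by_contra hli
  have hld : l ∈ dir L F v := hF.supp_subset hv hx hl
  have h1 : opp L F v l ≠ opp L F v i := fun h2 => hli (opp_inj hld h2)
  exact (mem_opp hF hv hx).mp (h _ (opp_mem_thr hF hv hld) h1) hl

/-- Two different nodes which lie in `k` common facets are neighbours (`card_com`: the support
has at most one element; `L.eq_self`, `L.eq_nb`). -/
theorem exists_nb_of_com (hF : IsFace L (k + 1) F) {v w : V} (hv : v ∈ F) (hw : w ∈ F)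
    (hne : w ≠ v) (h : k ≤ (com L k F v w).card) : ∃ l ∈ dir L F v, L.nb v l = w := by
  have h1 := card_com hF hv hw
  have h2 : (L.supp v w).Nonempty := by
    rw [nonempty_iff_ne_empty]
    exact fun h3 => hne (L.eq_self v w h3)
  have h3 := h2.card_pos
  have h4 : (L.supp v w).card = 1 := by omega
  obtain ⟨l, hl⟩ := card_eq_one.mp h4
  refine ⟨l, hF.supp_subset hv hw (by rw [hl]; exact mem_singleton_self l), ?_⟩
  exact (L.eq_nb v w l hl).symm

/-- A node of the face of dimension two spanned by the directions `i, i'` at `v`, different from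
`v` and from its two neighbours, lies in exactly those facets through `v` which are different
from `opp v i` and `opp v i'`.  Proof: `supp v w ⊆ {i, i'}`, it is not empty and not a singleton
by `L.eq_self`, `L.eq_nb`, so it is `{i, i'}`; then `exists_opp`, `mem_opp`, `opp_inj`. -/
theorem two_face (hF : IsFace L (k + 1) F) {v w : V} (hv : v ∈ F) {i i' : Fin d}
    (hi : i ∈ dir L F v) (hi' : i' ∈ dir L F v) (hii : i ≠ i')
    (hw : w ∈ faceOf L v {i, i'}) (h1 : w ≠ v) (h2 : w ≠ L.nb v i) (h3 : w ≠ L.nb v i') :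
    w ∈ F ∧ ∀ H ∈ thr L k F v, (w ∈ H ↔ H ≠ opp L F v i ∧ H ≠ opp L F v i') := by
  rw [mem_faceOf] at hw
  have hsub : ({i, i'} : Finset (Fin d)) ⊆ dir L F v := by
    intro l hl
    rcases mem_insert.mp hl with h | h
    · exact h ▸ hi
    · exact (mem_singleton.mp h) ▸ hi'
  have hwF : w ∈ F := (hF.mem_iff hv).mpr (hw.trans hsub)
  have hm : ∀ l ∈ L.supp v w, l = i ∨ l = i' := fun l hl => by
    simpa using hw hl
  have h4 : i ∈ L.supp v w := by
    by_contra h5
    rcases supp_le_singleton (i := i') (fun l hl => (hm l hl).resolve_left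
      (fun h6 => h5 (h6 ▸ hl))) with h6 | h6
    · exact h1 h6
    · exact h3 h6
  have h5 : i' ∈ L.supp v w := by
    by_contra h5
    rcases supp_le_singleton (i := i) (fun l hl => (hm l hl).resolve_right
      (fun h6 => h5 (h6 ▸ hl))) with h6 | h6
    · exact h1 h6
    · exact h2 h6
  refine ⟨hwF, fun H hH => ?_⟩
  obtain ⟨l, hl, rfl⟩ := exists_opp hF hv hH
  rw [mem_opp hF hv hwF]
  constructor
  · intro h6
    refine ⟨fun h7 => ?_, fun h7 => ?_⟩
    · rw [opp_inj hl h7] at h6
      exact h6 h4
    · rw [opp_inj hl h7] at h6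
      exact h6 h5
  · rintro ⟨h6, h7⟩ h8
    rcases hm l h8 with h9 | h9
    · exact h6 (by rw [h9])
    · exact h7 (by rw [h9])

/-- At least `k` facets through `v` which also contain `w`, all in a set `Z` with `w`... : if `w`
lies in a facet set `S` of `k` facets through `v`, then `S` is the set of all facets through `v`
except one `opp v i`. -/
theorem exists_dir_of_card (hF : IsFace L (k + 1) F) {v : V} (hv : v ∈ F)
    {S : Finset (Finset V)} (hS : S ⊆ thr L k F v) (hc : S.card = k) :
    ∃ i ∈ dir L F v, ∀ H, H ∈ S ↔ H ∈ thr L k F v ∧ H ≠ opp L F v i := by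
  classical
  have h1 := card_thr hF hv
  have h2 : (thr L k F v \ S).card = 1 := by
    rw [card_sdiff_of_subset hS]
    omega
  obtain ⟨H0, hH0⟩ := card_eq_one.mp h2
  have h3 : ∀ H, H ∈ thr L k F v ∧ H ∉ S ↔ H = H0 := fun H => by
    rw [← mem_sdiff, hH0, mem_singleton]
  obtain ⟨i, hi, hio⟩ := exists_opp hF hv ((h3 H0).mpr rfl).1
  refine ⟨i, hi, fun H => ?_⟩
  rw [hio]
  constructor
  · intro h4
    exact ⟨hS h4, fun h5 => ((h3 H).mpr h5).2 h4⟩
  · rintro ⟨h4, h5⟩
    by_contra h6
    exact h5 ((h3 H).mp ⟨h4, h6⟩)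

end Pool.Agent.Helper13.TSD
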