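import Mathlib
import Pool.Agent.Helper13.TSD.FB

/-!
# TSD-LB1: real facets of a label
-/

namespace Pool.Agent.Helper13.TSD

open Finset Pool.Agent.Helper82.TotSep

variable {V : Type*} [Fintype V] {G : SimpleGraph V} {d : ℕ} {Λ : Type*} {L : FaceData G d}
  {M : Finset V} {lab : V → Λ} {k : ℕ} {F : Finset V}

/-- If `v` sees the label of `nb v i` and another label through `nb v i'`, then the facets
`opp v l` with `l ≠ i`, `l ≠ i'` contain both neighbours: they are real and contain the label of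
`nb v i`. -/
theorem opp_mem_Zs (hF : IsFace L (k + 1) F) {v : V} (hv : v ∈ F) {i i' l : Fin d}
    (hi : i ∈ dir L F v) (hi' : i' ∈ dir L F v) (hl : l ∈ dir L F v) (hli : l ≠ i)
    (hli' : l ≠ i') (hM : L.nb v i ∉ M) (hM' : L.nb v i' ∉ M)
    (hne : lab (L.nb v i) ≠ lab (L.nb v i')) :
    opp L F v l ∈ Zs L M lab k F (lab (L.nb v i)) := by
  have h1 := mem_thr.mp (opp_mem_thr hF hv hl)
  rw [mem_Zs]
  have hc1 : lab (L.nb v i) ∈ labs M lab (opp L F v l) :=
    mem_labs.mpr ⟨_, (nb_mem_opp hF hv hi).mpr hli, hM, rfl⟩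
  have hc2 : lab (L.nb v i') ∈ labs M lab (opp L F v l) :=
    mem_labs.mpr ⟨_, (nb_mem_opp hF hv hi').mpr hli', hM', rfl⟩
  refine ⟨h1.1, ?_, hc1⟩
  have h2 : 1 < (labs M lab (opp L F v l)).card :=
    Finset.one_lt_card.mpr ⟨_, hc1, _, hc2, hne⟩
  omega

/-- A good seer `v` of `c` through the direction `i`: all facets through `v` except `opp v i` are
real and contain `c` (among two other labels seen by `v` one is seen through a direction
different from `l`). -/
theorem gs_edge (hF : IsFace L (k + 1) F) {c : Λ} {v : V} (hv : v ∈ gs L M lab F c) {i : Fin d}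
    (hi : i ∈ dir L F v) (hM : L.nb v i ∉ M) (hl : lab (L.nb v i) = c) :
    ∀ H ∈ thr L k F v, H ≠ opp L F v i → H ∈ Zs L M lab k F c := by
  classical
  intro H hH hne
  obtain ⟨l, hl', rfl⟩ := exists_opp hF (mem_seers.mp (mem_gs.mp hv).1).1 hH
  have hvF : v ∈ F := (mem_seers.mp (mem_gs.mp hv).1).1
  have hli : l ≠ i := fun h => hne (by rw [h])
  have h3 := (mem_gs.mp hv).2
  obtain ⟨b, hb⟩ : ((eqSeen L M lab F v) \ {c, lab (L.nb v l)}).Nonempty := by
    rw [← Finset.card_pos]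
    have h4 := Finset.le_card_sdiff ({c, lab (L.nb v l)} : Finset Λ) (eqSeen L M lab F v)
    have h5 : ({c, lab (L.nb v l)} : Finset Λ).card ≤ 2 := Finset.card_le_two
    omega
  rw [Finset.mem_sdiff, Finset.mem_insert, Finset.mem_singleton, not_or] at hb
  obtain ⟨hb1, hb2, hb3⟩ := hb
  obtain ⟨i', hi', hM', hl''⟩ := mem_eqSeen.mp hb1
  rw [← hl]
  refine opp_mem_Zs hF hvF hi hi' hl' hli ?_ hM hM' ?_
  · rintro rfl
    exact hb3 hl''.symm
  · rw [hl, hl'']
    exact fun h => hb2 h.symm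

end Pool.Agent.Helper13.TSD
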