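import Mathlib
import Pool.Agent.Helper13.TSD.LB1
import Pool.Agent.Helper13.TSD.LA

/-!
# TSD-LB2: the number of real facets of a label
-/

namespace Pool.Agent.Helper13.TSD

open Finset Pool.Agent.Helper82.TotSep

variable {V : Type*} [Fintype V] {G : SimpleGraph V} {d : ℕ} {Λ : Type*} {L : FaceData G d}
  {M : Finset V} {lab : V → Λ} {k : ℕ} {F : Finset V}

/-- Every label lies in at least `k - 1` real facets: take a seer `v` of `c` (`card_seers`), a
second label seen by `v` (`Ctx.sees`), and `opp_mem_Zs`, `opp_inj`. -/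
theorem Ctx.le_card_Zs (h : Ctx L M lab k F) {c : Λ} (hc : c ∈ labs M lab F) :
    k ≤ (Zs L M lab k F c).card + 1 := by
  classical
  have h1 := card_seers h.labOn h.face h.two hc
  obtain ⟨v, hv⟩ := Finset.card_pos.mp (show 0 < (seers L M lab F c).card by omega)
  obtain ⟨hvF, hvM, i, hi, hiM, hic⟩ := mem_seers.mp hv
  obtain ⟨c', hc', hne⟩ := Finset.exists_mem_ne (lt_of_lt_of_le one_lt_two (h.sees v hvM hvF)) c
  obtain ⟨i', hi', hiM', hic'⟩ := mem_eqSeen.mp hc'
  have hii : i' ≠ i := by
    intro he
    rw [he, hic] at hic'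
    exact hne hic'.symm
  have hcard : (((dir L F v).erase i).erase i').card + 1 = k := by
    rw [Finset.card_erase_of_mem (Finset.mem_erase.mpr ⟨hii, hi'⟩), Finset.card_erase_of_mem hi,
      h.face.card_dir hvF]
    have h3 : 2 ≤ (dir L F v).card := by
      have : ({i, i'} : Finset (Fin d)) ⊆ dir L F v := by
        intro x hx
        rcases Finset.mem_insert.mp hx with hx | hx
        · rw [hx]; exact hi
        · rw [Finset.mem_singleton.mp hx]; exact hi'
      have h4 := Finset.card_le_card this
      rwa [Finset.card_pair (Ne.symm hii)] at h4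
    rw [h.face.card_dir hvF] at h3
    omega
  have hsub : (((dir L F v).erase i).erase i').image (fun l => opp L F v l) ⊆
      Zs L M lab k F c := by
    intro H hH
    obtain ⟨l, hl, rfl⟩ := Finset.mem_image.mp hH
    rw [Finset.mem_erase, Finset.mem_erase] at hl
    have := opp_mem_Zs (M := M) (lab := lab) h.face hvF hi hi' hl.2.2 hl.2.1 hl.1 hiM hiM'
      (by rw [hic, hic']; exact Ne.symm hne)
    rwa [hic] at this
  have hle := Finset.card_le_card hsub
  rw [Finset.card_image_of_injOn] at hle
  · omega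
  · intro l hl l' hl' hll
    have hl2 : l ∈ dir L F v := Finset.mem_of_mem_erase (Finset.mem_of_mem_erase hl)
    exact opp_inj hl2 hll

/-- Two good seers: at least `k + 1` real facets.  Otherwise `Zs c` is the set of the facets
through `v` except `opp v i`, and also the set of the facets through `v'` except `opp v' i'`; so
`v'` lies in all facets through `v` except `opp v i`, and `eq_or_eq_nb` gives `v' = v` or
`v' = nb v i`, which is not in `M`. -/
theorem card_Zs_ge (hF : IsFace L (k + 1) F) {c : Λ} (hc : 2 ≤ (gs L M lab F c).card) :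
    k + 1 ≤ (Zs L M lab k F c).card := by
  classical
  by_contra hlt
  push Not at hlt
  have key : ∀ v ∈ gs L M lab F c, ∃ i ∈ dir L F v, v ∈ F ∧ v ∈ M ∧ L.nb v i ∉ M ∧
      (thr L k F v).erase (opp L F v i) = Zs L M lab k F c := by
    intro v hv
    obtain ⟨hvF, hvM, i, hi, hiM, hic⟩ := mem_seers.mp (mem_gs.mp hv).1
    refine ⟨i, hi, hvF, hvM, hiM, Finset.eq_of_subset_of_card_le ?_ ?_⟩
    · intro H hH
      rw [Finset.mem_erase] at hH
      exact gs_edge hF hv hi hiM hic H hH.2 hH.1
    · rw [Finset.card_erase_of_mem (opp_mem_thr hF hvF hi), card_thr hF hvF]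
      omega
  obtain ⟨v, hv, v', hv', hne⟩ := Finset.one_lt_card.mp (lt_of_lt_of_le one_lt_two hc)
  obtain ⟨i, hi, hvF, -, hiM, hZ⟩ := key v hv
  obtain ⟨i', -, hvF', hvM', -, hZ'⟩ := key v' hv'
  rcases eq_or_eq_nb hF hvF hi hvF' (fun H hH hHi => by
    have h1 : H ∈ Zs L M lab k F c := by
      rw [← hZ]
      exact Finset.mem_erase.mpr ⟨hHi, hH⟩
    rw [← hZ'] at h1
    exact (mem_thr.mp (Finset.mem_of_mem_erase h1)).2) with h1 | h1
  · exact hne h1.symm
  · rw [h1] at hvM'
    exact hiM hvM'

end Pool.Agent.Helper13.TSD
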