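import Mathlib
import Pool.Agent.Helper13.TSD.LB2

/-!
# TSD-LC: nice labels
-/

namespace Pool.Agent.Helper13.TSD

open Finset Pool.Agent.Helper82.TotSep

variable {V : Type*} [Fintype V] {G : SimpleGraph V} {d : ℕ} {Λ : Type*} {L : FaceData G d}
  {M : Finset V} {lab : V → Λ} {k : ℕ} {F : Finset V}

/-- For a nice label and a good seer `v` through the direction `i`, the facet `opp v i` is not in
`Zs c`.  Otherwise `Zs c = thr v` (`gs_edge`, cardinalities); another good seer `v'`, through the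
direction `i'`, gives: all facets through `v'` except `opp v' i'` contain `v`, so `v = v'` or
`v = nb v' i'`, not in `M`. -/
theorem Nice.opp_notMem (hF : IsFace L (k + 1) F) {c : Λ} (hc : Nice L M lab k F c) {v : V}
    (hv : v ∈ gs L M lab F c) {i : Fin d} (hi : i ∈ dir L F v) (hM : L.nb v i ∉ M)
    (hl : lab (L.nb v i) = c) : opp L F v i ∉ Zs L M lab k F c := by
  classical
  intro hmem
  have hvF : v ∈ F := (mem_seers.mp (mem_gs.mp hv).1).1
  have hvM : v ∈ M := (mem_seers.mp (mem_gs.mp hv).1).2.1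
  have hsub : thr L k F v ⊆ Zs L M lab k F c := by
    intro H hH
    by_cases h : H = opp L F v i
    · rw [h]; exact hmem
    · exact gs_edge hF hv hi hM hl H hH h
  have heq : thr L k F v = Zs L M lab k F c :=
    Finset.eq_of_subset_of_card_le hsub (by rw [hc.1, card_thr hF hvF])
  obtain ⟨v', hv', hne⟩ := Finset.exists_mem_ne
    (show 1 < (gs L M lab F c).card by have := hc.2; omega) v
  obtain ⟨hv'F, hv'M, i', hi', hM', hl'⟩ := mem_seers.mp (mem_gs.mp hv').1
  rcases eq_or_eq_nb hF hv'F hi' hvF (fun H hH hH' => by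
    have h1 := gs_edge hF hv' hi' hM' hl' H hH hH'
    rw [← heq] at h1
    exact (mem_thr.mp h1).2) with h | h
  · exact hne h.symm
  · exact hM' (h ▸ hvM)

/-- So `Zs c` consists of the facets through `v` except `opp v i` and of one facet which does not
contain `v`. -/
theorem Nice.exists_miss (hF : IsFace L (k + 1) F) {c : Λ} (hc : Nice L M lab k F c) {v : V}
    (hv : v ∈ gs L M lab F c) : ∃ a, Miss L M lab k F c v a := by
  classical
  obtain ⟨hvF, hvM, i, hi, hM, hl⟩ := mem_seers.mp (mem_gs.mp hv).1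
  have hn := hc.opp_notMem hF hv hi hM hl
  have hsub : (thr L k F v).erase (opp L F v i) ⊆ Zs L M lab k F c := by
    intro H hH
    rw [Finset.mem_erase] at hH
    exact gs_edge hF hv hi hM hl H hH.2 hH.1
  have hcard : (Zs L M lab k F c \ (thr L k F v).erase (opp L F v i)).card = 1 := by
    rw [Finset.card_sdiff_of_subset hsub, hc.1,
      Finset.card_erase_of_mem (opp_mem_thr hF hvF hi), card_thr hF hvF]
    omega
  obtain ⟨a, ha⟩ := Finset.card_eq_one.mp hcard
  have key : ∀ H, H ∈ Zs L M lab k F c → v ∉ H → H = a := by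
    intro H hH hvH
    have : H ∈ Zs L M lab k F c \ (thr L k F v).erase (opp L F v i) := by
      rw [Finset.mem_sdiff, Finset.mem_erase, mem_thr]
      exact ⟨hH, fun h => hvH h.2.2⟩
    rw [ha, Finset.mem_singleton] at this
    exact this
  have ha' : a ∈ Zs L M lab k F c \ (thr L k F v).erase (opp L F v i) := by
    rw [ha]; exact Finset.mem_singleton_self a
  rw [Finset.mem_sdiff, Finset.mem_erase] at ha'
  refine ⟨a, ha'.1, fun hva => ha'.2 ⟨fun h => hn (h ▸ ha'.1), ?_⟩, key⟩
  exact mem_thr.mpr ⟨(mem_Zs.mp ha'.1).1, hva⟩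

/-- The direction through which a good seer sees a nice label is unique. -/
theorem Nice.dir_unique (hF : IsFace L (k + 1) F) {c : Λ} (hc : Nice L M lab k F c) {v : V}
    (hv : v ∈ gs L M lab F c) {i i' : Fin d} (hi : i ∈ dir L F v) (hM : L.nb v i ∉ M)
    (hl : lab (L.nb v i) = c) (hi' : i' ∈ dir L F v) (hM' : L.nb v i' ∉ M)
    (hl' : lab (L.nb v i') = c) : i = i' := by
  by_contra hne
  have hvF : v ∈ F := (mem_seers.mp (mem_gs.mp hv).1).1
  exact hc.opp_notMem hF hv hi' hM' hl'
    (gs_edge hF hv hi hM hl _ (opp_mem_thr hF hvF hi') fun h => hne (opp_inj hi' h).symm)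

/-- The good seer is determined by the missing facet: `Zs c` minus `a` is the set of the facets
through `v` except `opp v i`, and they all contain `v'`; `eq_or_eq_nb`. -/
theorem Nice.seer_unique (hF : IsFace L (k + 1) F) {c : Λ} (hc : Nice L M lab k F c) {v v' : V}
    (hv : v ∈ gs L M lab F c) (hv' : v' ∈ gs L M lab F c) {a : Finset V}
    (ha : Miss L M lab k F c v a) (ha' : Miss L M lab k F c v' a) : v = v' := by
  obtain ⟨hvF, hvM, i, hi, hM, hl⟩ := mem_seers.mp (mem_gs.mp hv).1
  have hv'F : v' ∈ F := (mem_seers.mp (mem_gs.mp hv').1).1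
  have hv'M : v' ∈ M := (mem_seers.mp (mem_gs.mp hv').1).2.1
  rcases eq_or_eq_nb hF hvF hi hv'F (fun H hH hH' => by
    by_contra hvH
    have h1 := ha'.2.2 H (gs_edge hF hv hi hM hl H hH hH') hvH
    exact ha.2.1 (h1 ▸ (mem_thr.mp hH).2)) with h | h
  · exact h.symm
  · exact absurd (h ▸ hv'M) hM

/-- Description of `Zs c` by a good seer. -/
theorem Nice.mem_Zs_iff (hF : IsFace L (k + 1) F) {c : Λ} (hc : Nice L M lab k F c) {v : V}
    (hv : v ∈ gs L M lab F c) {i : Fin d} (hi : i ∈ dir L F v) (hM : L.nb v i ∉ M)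
    (hl : lab (L.nb v i) = c) {a : Finset V} (ha : Miss L M lab k F c v a) {H : Finset V} :
    H ∈ Zs L M lab k F c ↔ H = a ∨ (H ∈ thr L k F v ∧ H ≠ opp L F v i) := by
  constructor
  · intro hH
    by_cases hvH : v ∈ H
    · exact Or.inr ⟨mem_thr.mpr ⟨(mem_Zs.mp hH).1, hvH⟩,
        fun h => hc.opp_notMem hF hv hi hM hl (h ▸ hH)⟩
    · exact Or.inl (ha.2.2 H hH hvH)
  · rintro (h | ⟨h1, h2⟩)
    · rw [h]; exact ha.1
    · exact gs_edge hF hv hi hM hl H h1 h2

end Pool.Agent.Helper13.TSD
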