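import Mathlib
import Pool.Agent.Helper13.TSD.FC1
import Pool.Agent.Helper13.TSD.LC

/-!
# TSD-DB1: the classes at a node
-/

namespace Pool.Agent.Helper13.TSD

open Finset Pool.Agent.Helper82.TotSep

variable {V : Type*} [Fintype V] {G : SimpleGraph V} {d : ℕ} {Λ : Type*} {L : FaceData G d}
  {M : Finset V} {lab : V → Λ} {k : ℕ} {F : Finset V}

/-- The classes at `v` are disjoint sets of labels seen by `v`: the sum of their sizes is at most
`k + 1` (`card_eqSeen_le`; `a` is determined by `c` and `v`). -/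
theorem sum_cls_le (hF : IsFace L (k + 1) F) {v : V} (hv : v ∈ F) (A : Finset (Finset V)) :
    ∑ a ∈ A, (cls L M lab k F v a).card ≤ k + 1 := by
  classical
  have hdis : ∀ a ∈ A, ∀ b ∈ A, a ≠ b →
      Disjoint (cls L M lab k F v a) (cls L M lab k F v b) := by
    intro a _ b _ hab
    rw [Finset.disjoint_left]
    intro c hca hcb
    have h1 := (mem_cls.mp hca).2.2.2
    have h2 := (mem_cls.mp hcb).2.2.2
    exact hab (h1.2.2 b h2.1 h2.2.1).symm
  rw [← Finset.card_biUnion hdis]
  refine le_trans (Finset.card_le_card ?_) (card_eqSeen_le (M := M) (lab := lab) hF hv)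
  intro c hc
  rw [Finset.mem_biUnion] at hc
  obtain ⟨a, _, hca⟩ := hc
  have h1 := (mem_cls.mp hca).2.2.1
  exact mem_eqSeen.mpr (mem_seers.mp (mem_gs.mp h1).1).2.2

open Classical in
/-- At a node `v`: with `m a = ent v a`, `x a = |cls v a|`,
`∑ x a ≤ #{a | x a ≥ 1} + ∑ (x a - 1)` and `(x a - 1) ≤ √(m a + 1) √(x a (x a - 1) / (m a + 1))`,
Cauchy-Schwarz and `∑ (m a + 1) ≤ 2 (k + 1)` over the `a` with `x a ≥ 1` (`sum_ent`,
`sum_cls_le`; `v ∉ a` by the definition of `cls`). -/
theorem sum_cls_big_le (hF : IsFace L (k + 1) F) {v : V} (hv : v ∈ F) :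
    (∑ a ∈ big L M k F, (cls L M lab k F v a).card : ℝ) ≤
      ((big L M k F).filter fun H => v ∉ H).card +
        √(2 * (k + 1) * ∑ a ∈ facets L k F, ((cls L M lab k F v a).card : ℝ) *
          ((cls L M lab k F v a).card - 1) / (ent L F v a + 1)) := by
  set P : Finset (Finset V) := (big L M k F).filter fun a => 1 ≤ (cls L M lab k F v a).card
    with hP
  have hPmem : ∀ a ∈ P, a ∈ facets L k F ∧ v ∉ a := by
    intro a ha
    rw [hP, Finset.mem_filter] at ha
    obtain ⟨c, hc⟩ := Finset.card_pos.mp ha.2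
    exact ⟨(mem_big.mp ha.1).1, (mem_cls.mp hc).2.2.2.2.1⟩
  have h1 : (∑ a ∈ big L M k F, ((cls L M lab k F v a).card : ℝ)) =
      ∑ a ∈ P, ((cls L M lab k F v a).card : ℝ) := by
    rw [hP, Finset.sum_filter]
    refine Finset.sum_congr rfl fun a _ => ?_
    split_ifs with h
    · rfl
    · have : (cls L M lab k F v a).card = 0 := by omega
      rw [this]
      simp
  have h2 : (∑ a ∈ P, ((cls L M lab k F v a).card : ℝ)) =
      P.card + ∑ a ∈ P, (((cls L M lab k F v a).card : ℝ) - 1) := by
    rw [Finset.sum_sub_distrib, Finset.sum_const, nsmul_eq_mul, mul_one]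
    ring
  have h3 : (P.card : ℝ) ≤ ((big L M k F).filter fun H => v ∉ H).card := by
    have : P ⊆ (big L M k F).filter fun H => v ∉ H := by
      intro a ha
      have ha' := ha
      rw [hP, Finset.mem_filter] at ha
      exact Finset.mem_filter.mpr ⟨ha.1, (hPmem a ha').2⟩
    exact_mod_cast Finset.card_le_card this
  have h4 : (∑ a ∈ P, ((ent L F v a : ℝ) + 1)) ≤ 2 * (k + 1) := by
    rw [Finset.sum_add_distrib, Finset.sum_const, nsmul_eq_mul, mul_one]
    have e1 : (∑ a ∈ P, (ent L F v a : ℝ)) ≤ k + 1 := by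
      exact_mod_cast sum_ent hF hv P hPmem
    have e2 : (P.card : ℝ) ≤ k + 1 := by
      have e3 : P.card ≤ ∑ a ∈ P, (cls L M lab k F v a).card := by
        rw [Finset.card_eq_sum_ones]
        refine Finset.sum_le_sum fun a ha => ?_
        rw [hP, Finset.mem_filter] at ha
        exact ha.2
      exact_mod_cast e3.trans (sum_cls_le hF hv P)
    linarith
  have hterm : ∀ a : Finset V, 0 ≤ ((cls L M lab k F v a).card : ℝ) *
      ((cls L M lab k F v a).card - 1) / (ent L F v a + 1) := by
    intro a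
    apply div_nonneg _ (by positivity)
    rcases Nat.eq_zero_or_pos (cls L M lab k F v a).card with h | h
    · rw [h]
      simp
    · have : (1 : ℝ) ≤ (cls L M lab k F v a).card := by exact_mod_cast h
      apply mul_nonneg (by positivity)
      linarith
  have h5 : (∑ a ∈ P, (((cls L M lab k F v a).card : ℝ) - 1) ^ 2 / (ent L F v a + 1)) ≤
      ∑ a ∈ facets L k F, ((cls L M lab k F v a).card : ℝ) *
          ((cls L M lab k F v a).card - 1) / (ent L F v a + 1) := by
    refine le_trans (Finset.sum_le_sum fun a ha => ?_)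
      (Finset.sum_le_sum_of_subset_of_nonneg (fun a ha => (hPmem a ha).1) fun a _ _ => hterm a)
    rw [hP, Finset.mem_filter] at ha
    have hx : (1 : ℝ) ≤ (cls L M lab k F v a).card := by exact_mod_cast ha.2
    apply div_le_div_of_nonneg_right _ (by positivity)
    nlinarith
  have h6 : (∑ a ∈ P, (((cls L M lab k F v a).card : ℝ) - 1)) ^ 2 ≤
      (∑ a ∈ P, ((ent L F v a : ℝ) + 1)) *
        ∑ a ∈ P, (((cls L M lab k F v a).card : ℝ) - 1) ^ 2 / (ent L F v a + 1) := by
    apply Finset.sum_sq_le_sum_mul_sum_of_sq_le_mul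
    · intro a _
      positivity
    · intro a _
      positivity
    · intro a _
      have : (ent L F v a : ℝ) + 1 ≠ 0 := by positivity
      apply le_of_eq
      field_simp
  have h7 : (∑ a ∈ P, (((cls L M lab k F v a).card : ℝ) - 1)) ≤
      √(2 * (k + 1) * ∑ a ∈ facets L k F, ((cls L M lab k F v a).card : ℝ) *
          ((cls L M lab k F v a).card - 1) / (ent L F v a + 1)) := by
    apply Real.le_sqrt_of_sq_le
    refine h6.trans ?_
    refine mul_le_mul h4 h5 ?_ (by positivity)
    exact Finset.sum_nonneg fun a _ => by positivity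
  rw [h1, h2]
  exact add_le_add h3 h7

end Pool.Agent.Helper13.TSD
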