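import Mathlib
import Pool.Agent.Helper13.TSD.LC

/-!
# TSD-PA1: classes
-/

namespace Pool.Agent.Helper13.TSD

open Finset Pool.Agent.Helper82.TotSep

variable {V : Type*} [Fintype V] {G : SimpleGraph V} {d : ℕ} {Λ : Type*} {L : FaceData G d}
  {M : Finset V} {lab : V → Λ} {k : ℕ} {F : Finset V}

/-- If `c ≠ c'` are in the class `a` at `v`, then the facets through `v` are those of
`Zs c ∪ Zs c'` different from `a`. -/
theorem cls_thr (hF : IsFace L (k + 1) F) {c c' : Λ} (hne : c ≠ c') {v : V} {a : Finset V}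
    (hc : c ∈ cls L M lab k F v a) (hc' : c' ∈ cls L M lab k F v a) {H : Finset V} :
    H ∈ thr L k F v ↔ (H ∈ Zs L M lab k F c ∨ H ∈ Zs L M lab k F c') ∧ H ≠ a := by
  obtain ⟨_, hn, hg, hm⟩ := mem_cls.mp hc
  obtain ⟨_, hn', hg', hm'⟩ := mem_cls.mp hc'
  obtain ⟨i, hi, hM, hl⟩ := (mem_seers.mp (mem_gs.mp hg).1).2.2
  obtain ⟨i', hi', hM', hl'⟩ := (mem_seers.mp (mem_gs.mp hg').1).2.2
  have hii : i ≠ i' := by
    intro h
    rw [h, hl'] at hl
    exact hne hl.symm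
  rw [hn.mem_Zs_iff hF hg hi hM hl hm, hn'.mem_Zs_iff hF hg' hi' hM' hl' hm']
  constructor
  · intro hH
    refine ⟨?_, ?_⟩
    · by_cases h : H = opp L F v i
      · refine Or.inr (Or.inr ⟨hH, fun h' => hii (opp_inj hi (h.symm.trans h'))⟩)
      · exact Or.inl (Or.inr ⟨hH, h⟩)
    · intro h
      exact hm.2.1 (h ▸ (mem_thr.mp hH).2)
  · rintro ⟨(h | h) | (h | h), hHa⟩
    · exact absurd h hHa
    · exact h.1
    · exact absurd h hHa
    · exact h.1

/-- If `c ≠ c'` are in the class `a` at `v` and in the class `a'` at `v'`, `a ≠ a'`, then `v` and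
`v'` are neighbours and `v' ∈ a`.  By `cls_thr` the facets through `v'` are those of
`Zs c ∪ Zs c'` except `a'`; they contain `a`, and `k` of them contain `v`: `exists_nb_of_com`. -/
theorem cls_adj (hF : IsFace L (k + 1) F) {c c' : Λ} (hne : c ≠ c') {v v' : V}
    {a a' : Finset V} (hc : c ∈ cls L M lab k F v a) (hc' : c' ∈ cls L M lab k F v a)
    (hd : c ∈ cls L M lab k F v' a') (hd' : c' ∈ cls L M lab k F v' a') (ha : a ≠ a') :
    v' ∈ a ∧ ∃ l ∈ dir L F v, L.nb v l = v' := by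
  classical
  have hm := (mem_cls.mp hc).2.2.2
  have hvF : v ∈ F := (mem_seers.mp (mem_gs.mp (mem_cls.mp hc).2.2.1).1).1
  have hvF' : v' ∈ F := (mem_seers.mp (mem_gs.mp (mem_cls.mp hd).2.2.1).1).1
  have h1 : ∀ {H}, H ∈ thr L k F v ↔ _ := fun {H} => cls_thr (H := H) hF hne hc hc'
  have h2 : ∀ {H}, H ∈ thr L k F v' ↔ _ := fun {H} => cls_thr (H := H) hF hne hd hd'
  have hva : v' ∈ a := (mem_thr.mp (h2.mpr ⟨Or.inl hm.1, ha⟩)).2
  refine ⟨hva, exists_nb_of_com hF hvF hvF' (fun h => hm.2.1 (h ▸ hva)) ?_⟩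
  have hsub : (thr L k F v).erase a' ⊆ com L k F v v' := by
    intro H hH
    rw [mem_erase] at hH
    have h3 := h2.mpr ⟨(h1.mp hH.2).1, hH.1⟩
    exact mem_com.mpr ⟨(mem_thr.mp hH.2).1, (mem_thr.mp hH.2).2, (mem_thr.mp h3).2⟩
  have h3 := card_le_card hsub
  have h4 := card_thr hF hvF
  have h5 := pred_card_le_card_erase (s := thr L k F v) (a := a')
  omega

end Pool.Agent.Helper13.TSD
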