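import Mathlib
import Pool.Agent.Helper13.TSD.PA1

/-!
# TSD-PA2: the number of nodes for a pair of labels
-/

namespace Pool.Agent.Helper13.TSD

open Finset Pool.Agent.Helper82.TotSep

variable {V : Type*} [Fintype V] {G : SimpleGraph V} {d : ℕ} {Λ : Type*} {L : FaceData G d}
  {M : Finset V} {lab : V → Λ} {k : ℕ} {F : Finset V}

open Classical in
/-- For a pair `c ≠ c'`, let `A` be a set of pairs `(v, a)` such that `c, c'` are in the class `a`
at `v`.  Then `|A| ≤ ent v a + 1` for each of them: the other pairs `(v', a')` have different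
`v'` (`Nice.seer_unique` and `cls_adj`), all of them neighbours of `v` in `a`. -/
theorem card_le_ent (hF : IsFace L (k + 1) F) {c c' : Λ} (hne : c ≠ c')
    (A : Finset (V × Finset V))
    (hA : ∀ p ∈ A, c ∈ cls L M lab k F p.1 p.2 ∧ c' ∈ cls L M lab k F p.1 p.2) {p : V × Finset V}
    (hp : p ∈ A) : A.card ≤ ent L F p.1 p.2 + 1 := by
  classical
  have h0 := hA p hp
  have key : ∀ q ∈ A.erase p, ∃ l, l ∈ dir L F p.1 ∧ L.nb p.1 l = q.1 ∧ q.1 ∈ p.2 := by
    intro q hq
    rw [Finset.mem_erase] at hq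
    have h1 := hA q hq.2
    have hne' : p.2 ≠ q.2 := by
      intro h
      apply hq.1
      have h2 := mem_cls.mp h0.1
      have h3 := mem_cls.mp h1.1
      have h4 := h2.2.1.seer_unique hF h2.2.2.1 h3.2.2.1 h2.2.2.2 (by rw [h]; exact h3.2.2.2)
      exact Prod.ext h4.symm h.symm
    obtain ⟨h5, l, hl, hl'⟩ := cls_adj hF hne h0.1 h0.2 h1.1 h1.2 hne'
    exact ⟨l, hl, hl', h5⟩
  have key' : ∀ q : V × Finset V, ∃ l : Option (Fin d), q ∈ A.erase p →
      ∃ l', l = some l' ∧ l' ∈ dir L F p.1 ∧ L.nb p.1 l' = q.1 ∧ q.1 ∈ p.2 := by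
    intro q
    by_cases hq : q ∈ A.erase p
    · obtain ⟨l, hl⟩ := key q hq
      exact ⟨some l, fun _ => ⟨l, rfl, hl⟩⟩
    · exact ⟨none, fun h => absurd h hq⟩
  choose g hg using key'
  have h6 : (A.erase p).card ≤
      (((dir L F p.1).filter fun l => L.nb p.1 l ∈ p.2).image some).card := by
    refine Finset.card_le_card_of_injOn g ?_ ?_
    · intro q hq
      obtain ⟨l, e, h1, h2, h3⟩ := hg q hq
      rw [Finset.mem_coe, Finset.mem_image]
      exact ⟨l, Finset.mem_filter.mpr ⟨h1, by rw [h2]; exact h3⟩, e.symm⟩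
    · intro q hq q' hq' h
      obtain ⟨l, e, h1, h2, h3⟩ := hg q hq
      obtain ⟨l', e', h1', h2', h3'⟩ := hg q' hq'
      have e2 : l = l' := by
        rw [e, e'] at h
        exact Option.some.inj h
      have h9 : q.1 = q'.1 := by rw [← h2, ← h2', e2]
      have m1 := (mem_cls.mp (hA q (Finset.mem_of_mem_erase hq)).1).2.2.2
      have m2 := (mem_cls.mp (hA q' (Finset.mem_of_mem_erase hq')).1).2.2.2
      exact Prod.ext h9 (m2.2.2 q.2 m1.1 (by rw [← h9]; exact m1.2.1))
  have h7 := Finset.card_erase_add_one hp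
  have h8 := h6.trans Finset.card_image_le
  unfold ent
  omega

end Pool.Agent.Helper13.TSD
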