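import Mathlib
import Pool.Agent.Helper13.TSD.PA2

/-!
# TSD-PA3: the weighted number of pairs
-/

namespace Pool.Agent.Helper13.TSD

open Finset Pool.Agent.Helper82.TotSep

variable {V : Type*} [Fintype V] {G : SimpleGraph V} {d : ℕ} {Λ : Type*} {L : FaceData G d}
  {M : Finset V} {lab : V → Λ} {k : ℕ} {F : Finset V}

/-- The weighted number of pairs in the same class.  Write
`|cls| (|cls| - 1)` as the number of ordered pairs `(c, c')`, `c ≠ c'`, of labels of `cls v a`,
exchange the sums, and use `card_le_ent` for each pair of `prs`: the sum over its `(v, a)` of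
`1 / (ent v a + 1)` is at most `1`. -/
theorem weight_le (hF : IsFace L (k + 1) F) :
    ∑ v ∈ inner M F, ∑ a ∈ facets L k F, ((cls L M lab k F v a).card : ℝ) *
      ((cls L M lab k F v a).card - 1) / (ent L F v a + 1) ≤ (prs L M lab k F).card := by
  classical
  have h1 : ∀ v a, ((cls L M lab k F v a).card : ℝ) * ((cls L M lab k F v a).card - 1) /
      (ent L F v a + 1) = ∑ p ∈ prs L M lab k F,
        if p.1 ∈ cls L M lab k F v a ∧ p.2 ∈ cls L M lab k F v a then
          1 / ((ent L F v a : ℝ) + 1) else 0 := by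
    intro v a
    rw [← Finset.sum_filter, Finset.sum_const, nsmul_eq_mul]
    have h2 : (prs L M lab k F).filter
        (fun p => p.1 ∈ cls L M lab k F v a ∧ p.2 ∈ cls L M lab k F v a) =
        (cls L M lab k F v a).offDiag := by
      ext p
      rw [Finset.mem_filter, Finset.mem_offDiag, mem_prs]
      constructor
      · rintro ⟨⟨_, h3, _⟩, h4, h5⟩
        exact ⟨h4, h5, h3⟩
      · rintro ⟨h4, h5, h3⟩
        exact ⟨⟨⟨(mem_cls.1 h4).1, (mem_cls.1 h5).1⟩, h3, v, a, h4, h5⟩, h4, h5⟩
    rw [h2, Finset.offDiag_card]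
    have h3 : (cls L M lab k F v a).card ≤
        (cls L M lab k F v a).card * (cls L M lab k F v a).card := Nat.le_mul_self _
    push_cast [Nat.cast_sub h3]
    ring
  rw [← Finset.sum_product', Finset.sum_congr rfl fun q _ => h1 q.1 q.2, Finset.sum_comm]
  have h4 : ∀ p ∈ prs L M lab k F, ∑ q ∈ inner M F ×ˢ facets L k F,
      (if p.1 ∈ cls L M lab k F q.1 q.2 ∧ p.2 ∈ cls L M lab k F q.1 q.2 then
          1 / ((ent L F q.1 q.2 : ℝ) + 1) else 0) ≤ 1 := by
    intro p hp
    have hne : p.1 ≠ p.2 := (mem_prs.1 hp).2.1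
    rw [← Finset.sum_filter]
    set A := (inner M F ×ˢ facets L k F).filter
      (fun q => p.1 ∈ cls L M lab k F q.1 q.2 ∧ p.2 ∈ cls L M lab k F q.1 q.2) with hA
    have hAm : ∀ q ∈ A, p.1 ∈ cls L M lab k F q.1 q.2 ∧ p.2 ∈ cls L M lab k F q.1 q.2 :=
      fun q hq => (Finset.mem_filter.1 hq).2
    rcases A.eq_empty_or_nonempty with h0 | h0
    · rw [h0, Finset.sum_empty]
      exact zero_le_one
    · have hA0 : (0 : ℝ) < A.card := by exact_mod_cast Finset.card_pos.2 h0
      calc ∑ q ∈ A, 1 / ((ent L F q.1 q.2 : ℝ) + 1) ≤ ∑ q ∈ A, 1 / (A.card : ℝ) := by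
            refine Finset.sum_le_sum fun q hq => ?_
            refine one_div_le_one_div_of_le hA0 ?_
            have := card_le_ent hF hne A hAm hq
            exact_mod_cast this
        _ = 1 := by
            rw [Finset.sum_const, nsmul_eq_mul]
            field_simp
  calc ∑ p ∈ prs L M lab k F, ∑ q ∈ inner M F ×ˢ facets L k F,
      (if p.1 ∈ cls L M lab k F q.1 q.2 ∧ p.2 ∈ cls L M lab k F q.1 q.2 then
          1 / ((ent L F q.1 q.2 : ℝ) + 1) else 0)
      ≤ ∑ p ∈ prs L M lab k F, (1 : ℝ) := Finset.sum_le_sum h4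
    _ = (prs L M lab k F).card := by simp

end Pool.Agent.Helper13.TSD
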