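import Mathlib
import Pool.Agent.Helper13.TSD.FB

/-!
# TSD-PB1: a separating node in a face of dimension two
-/

namespace Pool.Agent.Helper13.TSD

open Finset Pool.Agent.Helper82.TotSep

variable {V : Type*} [Fintype V] {G : SimpleGraph V} {d : ℕ} {Λ : Type*} {L : FaceData G d}
  {M : Finset V} {lab : V → Λ} {k : ℕ} {F : Finset V}

/-- In the face of dimension two spanned by `i, i'` at `v ∈ M`, where `nb v i`, `nb v i'` are not
in `M` and have different labels, some node `w ∈ M` different from `v` is adjacent to a node with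
the label of `nb v i`.  Proof: otherwise the set `{x | x ∉ M ∧ lab x = lab (nb v i)}` is
constant along the edges of the face outside `T = {v}`; use `IsFace.conn` with `T = {v}` and
`isFace_faceOf` (dimension `2`). -/
theorem exists_sep (hlab : LabOn G M lab F) (hF : IsFace L (k + 1) F) {v : V} (hv : v ∈ F)
    {i i' : Fin d} (hi : i ∈ dir L F v) (hi' : i' ∈ dir L F v) (hM : L.nb v i ∉ M)
    (hM' : L.nb v i' ∉ M) (hne : lab (L.nb v i) ≠ lab (L.nb v i')) :
    ∃ w ∈ M, w ≠ v ∧ w ∈ faceOf L v {i, i'} ∧ Sees L M lab F w (lab (L.nb v i)) := by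
  classical
  by_contra hcon
  have hii : i ≠ i' := fun h => hne (by rw [h])
  have hR : IsFace L 2 (faceOf L v {i, i'}) := by
    have h := isFace_faceOf (L := L) v {i, i'}
    rwa [Finset.card_pair hii] at h
  have hRF : faceOf L v {i, i'} ⊆ F := by
    apply hF.faceOf_subset hv
    intro j hj
    rcases Finset.mem_insert.mp hj with h | h
    · rw [h]; exact hi
    · rw [Finset.mem_singleton.mp h]; exact hi'
  have hstep : ∀ x y, G.Adj x y → x ∈ faceOf L v {i, i'} → y ∈ faceOf L v {i, i'} → y ≠ v →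
      (x ∉ M ∧ lab x = lab (L.nb v i)) → (y ∉ M ∧ lab y = lab (L.nb v i)) := by
    intro x y hxy hx hy hyv hxC
    by_cases hyM : y ∈ M
    · exfalso
      obtain ⟨j, hj⟩ := L.nb_surj y x hxy.symm
      refine hcon ⟨y, hyM, hyv, hy, j, ?_, ?_, ?_⟩
      · rw [mem_dir, hj]
        exact hRF hx
      · rw [hj]
        exact hxC.1
      · rw [hj]
        exact hxC.2
    · exact ⟨hyM, (hlab x y hxy (hRF hx) (hRF hy) hxC.1 hyM).symm.trans hxC.2⟩
  have key := hR.conn {v} {x | x ∉ M ∧ lab x = lab (L.nb v i)} (by simp)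
    (fun x y hxy hx hy hxT hyT => by
      rw [Finset.mem_singleton] at hxT hyT
      exact ⟨hstep x y hxy hx hy hyT, hstep y x hxy.symm hy hx hxT⟩)
    (a := L.nb v i) (b := L.nb v i')
    (by rw [mem_faceOf, L.supp_nb]; simp)
    (by rw [mem_faceOf, L.supp_nb]; simp)
    (by rw [Finset.mem_singleton]; exact (L.adj_nb v i).ne')
    (by rw [Finset.mem_singleton]; exact (L.adj_nb v i').ne')
  exact hne (key.mp ⟨hM, rfl⟩).2.symm

end Pool.Agent.Helper13.TSD
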