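import Mathlib
import Pool.Agent.Helper13.TSD.PA1

/-!
# TSD-PB2: separating nodes outside the missing facet
-/

namespace Pool.Agent.Helper13.TSD

open Finset Pool.Agent.Helper82.TotSep

variable {V : Type*} [Fintype V] {G : SimpleGraph V} {d : ℕ} {Λ : Type*} {L : FaceData G d}
  {M : Finset V} {lab : V → Λ} {k : ℕ} {F : Finset V}

/-- The node `w` of `exists_sep` for `c` (through `i`) and `c'` (through `i'`), both in the class
`a` at `v`.  By `Nice.mem_Zs_iff` the facets of `Zs c` are `a`, `opp v i'` and those through the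
face of dimension two; by `two_face` the last ones contain `w` and `opp v i'` does not.  If
`w ∉ a` then `w` lies in only `k - 1` facets of `Zs c`, so it is not a good seer of `c`
(`gs_edge` would give `k` of them), so it sees at most two labels: type `Alpha`. -/
theorem alpha_of_notMem (h : Ctx L M lab k F) {c c' : Λ} (hne : c ≠ c') {v w : V}
    {a : Finset V} (hc : c ∈ cls L M lab k F v a) (hc' : c' ∈ cls L M lab k F v a)
    {i i' : Fin d} (hi : i ∈ dir L F v) (hi' : i' ∈ dir L F v) (hM : L.nb v i ∉ M)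
    (hM' : L.nb v i' ∉ M) (hl : lab (L.nb v i) = c) (hl' : lab (L.nb v i') = c') (hw : w ∈ M)
    (hwv : w ≠ v) (hwQ : w ∈ faceOf L v {i, i'}) (hs : Sees L M lab F w c) (ha : w ∉ a) :
    Alpha L M lab k F c c' w a := by
  classical
  have hF := h.face
  obtain ⟨-, hN, hgs, hMiss⟩ := mem_cls.mp hc
  have hvF : v ∈ F := (mem_seers.mp (mem_gs.mp hgs).1).1
  have hii : i ≠ i' := by
    intro hh
    apply hne
    rw [← hl, ← hl', hh]
  have hwi : w ≠ L.nb v i := fun hh => hM (hh ▸ hw)
  have hwi' : w ≠ L.nb v i' := fun hh => hM' (hh ▸ hw)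
  obtain ⟨hwF, htwo⟩ := two_face hF hvF hi hi' hii hwQ hwv hwi hwi'
  have hZ : ∀ H, H ∈ Zs L M lab k F c ↔ H = a ∨ (H ∈ thr L k F v ∧ H ≠ opp L F v i) :=
    fun H => Nice.mem_Zs_iff hF hN hgs hi hM hl hMiss
  have hbt : opp L F v i' ∈ thr L k F v := opp_mem_thr hF hvF hi'
  have hbi : opp L F v i' ≠ opp L F v i := fun hh => hii (opp_inj hi' hh).symm
  have hbZ : opp L F v i' ∈ Zs L M lab k F c := (hZ _).mpr (Or.inr ⟨hbt, hbi⟩)
  have hba : opp L F v i' ≠ a := fun hh => hMiss.2.1 (hh ▸ (mem_thr.mp hbt).2)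
  have hwb : w ∉ opp L F v i' := fun hh => ((htwo _ hbt).mp hh).2 rfl
  have hsee : c ∈ eqSeen L M lab F w := mem_eqSeen.mpr hs
  refine ⟨mem_inner.mpr ⟨hwF, hw⟩, ?_, hsee, hMiss.1, ha, opp L F v i', hbZ, hba, hwb, ?_,
    v, hc, i', hi', hM', hl', rfl⟩
  · by_contra hlt
    push Not at hlt
    have hwgs : w ∈ gs L M lab F c := mem_gs.mpr ⟨mem_seers.mpr ⟨hwF, hw, hs⟩, hlt⟩
    obtain ⟨j, hj, hjM, hjl⟩ := hs
    have hed := gs_edge hF hwgs hj hjM hjl
    have hot : opp L F w j ∈ thr L k F w := opp_mem_thr hF hwF hj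
    have hcard : ((thr L k F w).erase (opp L F w j)).card = k := by
      rw [Finset.card_erase_of_mem hot, card_thr hF hwF]
      rfl
    have hsub : insert a (insert (opp L F v i') ((thr L k F w).erase (opp L F w j))) ⊆
        Zs L M lab k F c := by
      intro H hH
      rcases Finset.mem_insert.mp hH with rfl | hH
      · exact hMiss.1
      rcases Finset.mem_insert.mp hH with rfl | hH
      · exact hbZ
      · exact hed H (Finset.mem_erase.mp hH).2 (Finset.mem_erase.mp hH).1
    have hn1 : opp L F v i' ∉ (thr L k F w).erase (opp L F w j) := fun hh =>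
      hwb (mem_thr.mp (Finset.mem_erase.mp hh).2).2
    have hn2 : a ∉ insert (opp L F v i') ((thr L k F w).erase (opp L F w j)) := by
      intro hh
      rcases Finset.mem_insert.mp hh with hh | hh
      · exact hba hh.symm
      · exact ha (mem_thr.mp (Finset.mem_erase.mp hh).2).2
    have hle := Finset.card_le_card hsub
    rw [Finset.card_insert_of_notMem hn2, Finset.card_insert_of_notMem hn1, hcard, hN.1] at hle
    omega
  · intro H hH hwH
    rcases (hZ H).mp hH with hHa | ⟨hHt, hHi⟩
    · exact Or.inl hHa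
    · by_cases hHb : H = opp L F v i'
      · exact Or.inr hHb
      · exact absurd ((htwo H hHt).mpr ⟨hHi, hHb⟩) hwH

end Pool.Agent.Helper13.TSD
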