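import Mathlib
import Pool.Agent.Helper13.TSD.PA1

/-!
# TSD-PB3: separating nodes in the missing facet
-/

namespace Pool.Agent.Helper13.TSD

open Finset Pool.Agent.Helper82.TotSep

variable {V : Type*} [Fintype V] {G : SimpleGraph V} {d : ℕ} {Λ : Type*} {L : FaceData G d}
  {M : Finset V} {lab : V → Λ} {k : ℕ} {F : Finset V}

/-- The facets through a good seer `x` of a nice label `c`, except `opp x m`, are the facets of
`Zs c` except a facet `b` which does not contain `x`. -/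
private lemma pb3_gs (hF : IsFace L (k + 1) F) {c : Λ} (hc : Nice L M lab k F c) {x : V}
    (hx : x ∈ gs L M lab F c) {m : Fin d} (hm : m ∈ dir L F x) (hM : L.nb x m ∉ M)
    (hl : lab (L.nb x m) = c) {b : Finset V} (hb : b ∈ Zs L M lab k F c) (hxb : x ∉ b)
    (H : Finset V) :
    (H ∈ thr L k F x ∧ H ≠ opp L F x m) ↔ (H ∈ Zs L M lab k F c ∧ H ≠ b) := by
  classical
  have hxF : x ∈ F := (mem_seers.mp (mem_gs.mp hx).1).1
  have hsub : (thr L k F x).erase (opp L F x m) ⊆ (Zs L M lab k F c).erase b := by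
    intro H hH
    rw [Finset.mem_erase] at hH ⊢
    refine ⟨?_, gs_edge hF hx hm hM hl H hH.2 hH.1⟩
    rintro rfl
    exact hxb (mem_thr.mp hH.2).2
  have h1 : ((thr L k F x).erase (opp L F x m)).card = k := by
    rw [Finset.card_erase_of_mem (opp_mem_thr hF hxF hm), card_thr hF hxF, Nat.add_sub_cancel]
  have h2 : ((Zs L M lab k F c).erase b).card = k := by
    rw [Finset.card_erase_of_mem hb, hc.1, Nat.add_sub_cancel]
  have heq := Finset.eq_of_subset_of_card_le hsub (by rw [h1, h2])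
  have h3 := Finset.ext_iff.mp heq H
  rw [Finset.mem_erase, Finset.mem_erase] at h3
  exact ⟨fun h => (h3.mp ⟨h.2, h.1⟩).symm, fun h => (h3.mpr ⟨h.2, h.1⟩).symm⟩

/-- The main step: `w` sees at most two labels. -/
private lemma pb3_key (hF : IsFace L (k + 1) F) {c c' : Λ} (hne : c ≠ c')
    (hc : Nice L M lab k F c) (hc' : Nice L M lab k F c') {b b' : Finset V}
    (hb : b ∈ Zs L M lab k F c) (hb' : b' ∈ Zs L M lab k F c')
    (hE : ∀ H, (H ∈ Zs L M lab k F c ∧ H ≠ b) ↔ (H ∈ Zs L M lab k F c' ∧ H ≠ b'))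
    {w w' : V} (hwM : w ∈ M) (hwF : w ∈ F) (hw'M : w' ∈ M) (hw'F : w' ∈ F)
    (hwb : w ∉ b) (hwb' : w ∉ b')
    (hall : ∀ H ∈ Zs L M lab k F c, H ≠ b → w' ∈ H)
    (hs : Sees L M lab F w c) (hs' : Sees L M lab F w' c') :
    (eqSeen L M lab F w).card ≤ 2 := by
  by_contra hcon
  have h3 : 3 ≤ (eqSeen L M lab F w).card := by omega
  have hwg : w ∈ gs L M lab F c := mem_gs.mpr ⟨mem_seers.mpr ⟨hwF, hwM, hs⟩, h3⟩
  obtain ⟨m, hm, hmM, hml⟩ := hs
  have e1 := pb3_gs hF hc hwg hm hmM hml hb hwb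
  have hww : w' = w := by
    rcases eq_or_eq_nb hF hwF hm hw'F (fun H hH hHo =>
      hall H ((e1 H).mp ⟨hH, hHo⟩).1 ((e1 H).mp ⟨hH, hHo⟩).2) with h | h
    · exact h
    · exact absurd (h ▸ hw'M) hmM
  subst hww
  have hwg' : w' ∈ gs L M lab F c' := mem_gs.mpr ⟨mem_seers.mpr ⟨hwF, hwM, hs'⟩, h3⟩
  obtain ⟨m', hm', hmM', hml'⟩ := hs'
  have e2 := pb3_gs hF hc' hwg' hm' hmM' hml' hb' hwb'
  have h4 : opp L F w' m = opp L F w' m' := by
    by_contra h5
    exact ((e1 _).mpr ((hE _).mpr ((e2 _).mp ⟨opp_mem_thr hF hwF hm, h5⟩))).2 rfl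
  have h6 : m = m' := opp_inj hm h4
  subst h6
  exact hne (hml.symm.trans hml')

/-- Now let `w` (seeing `c`) and `w'` (seeing `c'`) be two nodes of `M` in the face of dimension
two, different from `v`, which both lie in `a`.  Let `E` be the set of the `k` facets of `Zs c`
different from `opp v i'` (equivalently of `Zs c'` different from `opp v i`): all contain `w` and
`w'`.  If `w` sees three labels, it is a good seer of `c` through some direction `m`, and the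
facets through `w` except `opp w m` are in `Zs c` and contain `w`: they are `E`.  So `w'`, which
lies in all facets of `E`, is `w` (it is not `nb w m`, as it is in `M`); then `w = w'` is a good
seer of `c'` through some `m'`, again with the set `E`; so `opp w m = opp w m'`, `m = m'` and
`c = c'`, contradiction.  Same for `w'`. -/
theorem beta_of_mem (h : Ctx L M lab k F) {c c' : Λ} (hne : c ≠ c') {v w w' : V}
    {a : Finset V} (hc : c ∈ cls L M lab k F v a) (hc' : c' ∈ cls L M lab k F v a)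
    {i i' : Fin d} (hi : i ∈ dir L F v) (hi' : i' ∈ dir L F v) (hM : L.nb v i ∉ M)
    (hM' : L.nb v i' ∉ M) (hl : lab (L.nb v i) = c) (hl' : lab (L.nb v i') = c') (hw : w ∈ M)
    (hwv : w ≠ v) (hwQ : w ∈ faceOf L v {i, i'}) (hs : Sees L M lab F w c) (ha : w ∈ a)
    (hw' : w' ∈ M) (hwv' : w' ≠ v) (hwQ' : w' ∈ faceOf L v {i, i'}) (hs' : Sees L M lab F w' c')
    (ha' : w' ∈ a) : Beta L M lab k F c c' w w' := by
  have hF := h.face
  obtain ⟨_, hN, hg, hmiss⟩ := mem_cls.mp hc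
  obtain ⟨_, hN', hg', hmiss'⟩ := mem_cls.mp hc'
  have hvF : v ∈ F := (mem_seers.mp (mem_gs.mp hg).1).1
  have hii : i ≠ i' := by
    rintro rfl
    exact hne (hl.symm.trans hl')
  have hnb : ∀ {x : V} {j : Fin d}, x ∈ M → L.nb v j ∉ M → x ≠ L.nb v j := by
    intro x j hx hj hxj
    exact hj (hxj ▸ hx)
  obtain ⟨hwF, hwt⟩ := two_face hF hvF hi hi' hii hwQ hwv (hnb hw hM) (hnb hw hM')
  obtain ⟨hwF', hwt'⟩ := two_face hF hvF hi hi' hii hwQ' hwv' (hnb hw' hM) (hnb hw' hM')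
  have hZ : ∀ H, H ∈ Zs L M lab k F c ↔ H = a ∨ (H ∈ thr L k F v ∧ H ≠ opp L F v i) :=
    fun H => Nice.mem_Zs_iff hF hN hg hi hM hl hmiss
  have hZ' : ∀ H, H ∈ Zs L M lab k F c' ↔ H = a ∨ (H ∈ thr L k F v ∧ H ≠ opp L F v i') :=
    fun H => Nice.mem_Zs_iff hF hN' hg' hi' hM' hl' hmiss'
  have hto : opp L F v i ∈ thr L k F v := opp_mem_thr hF hvF hi
  have hto' : opp L F v i' ∈ thr L k F v := opp_mem_thr hF hvF hi'
  have hoo : opp L F v i ≠ opp L F v i' := fun he => hii (opp_inj hi he)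
  have hva : v ∉ a := hmiss.2.1
  have hao : a ≠ opp L F v i := by
    rintro rfl
    exact hva (mem_thr.mp hto).2
  have hao' : a ≠ opp L F v i' := by
    rintro rfl
    exact hva (mem_thr.mp hto').2
  have hb : opp L F v i' ∈ Zs L M lab k F c := (hZ _).mpr (Or.inr ⟨hto', hoo.symm⟩)
  have hb' : opp L F v i ∈ Zs L M lab k F c' := (hZ' _).mpr (Or.inr ⟨hto, hoo⟩)
  have hwb : w ∉ opp L F v i' := fun hx => ((hwt _ hto').mp hx).2 rfl
  have hwb' : w ∉ opp L F v i := fun hx => ((hwt _ hto).mp hx).1 rfl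
  have hw'b : w' ∉ opp L F v i' := fun hx => ((hwt' _ hto').mp hx).2 rfl
  have hw'b' : w' ∉ opp L F v i := fun hx => ((hwt' _ hto).mp hx).1 rfl
  have hall : ∀ H ∈ Zs L M lab k F c, H ≠ opp L F v i' → w ∈ H ∧ w' ∈ H := by
    intro H hH hHb
    rcases (hZ H).mp hH with rfl | ⟨h1, h2⟩
    · exact ⟨ha, ha'⟩
    · exact ⟨(hwt H h1).mpr ⟨h2, hHb⟩, (hwt' H h1).mpr ⟨h2, hHb⟩⟩
  have hall' : ∀ H ∈ Zs L M lab k F c', H ≠ opp L F v i → w ∈ H ∧ w' ∈ H := by
    intro H hH hHb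
    rcases (hZ' H).mp hH with rfl | ⟨h1, h2⟩
    · exact ⟨ha, ha'⟩
    · exact ⟨(hwt H h1).mpr ⟨hHb, h2⟩, (hwt' H h1).mpr ⟨hHb, h2⟩⟩
  have hE : ∀ H, (H ∈ Zs L M lab k F c ∧ H ≠ opp L F v i') ↔
      (H ∈ Zs L M lab k F c' ∧ H ≠ opp L F v i) := by
    intro H
    rw [hZ, hZ']
    constructor
    · rintro ⟨rfl | ⟨h1, h2⟩, h3⟩
      · exact ⟨Or.inl rfl, hao⟩
      · exact ⟨Or.inr ⟨h1, h3⟩, h2⟩
    · rintro ⟨rfl | ⟨h1, h2⟩, h3⟩
      · exact ⟨Or.inl rfl, hao'⟩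
      · exact ⟨Or.inr ⟨h1, h3⟩, h2⟩
  refine ⟨mem_inner.mpr ⟨hwF, hw⟩, mem_inner.mpr ⟨hwF', hw'⟩, ?_, ?_, mem_eqSeen.mpr hs,
    mem_eqSeen.mpr hs', hN, opp L F v i', hb, hwb, hall⟩
  · exact pb3_key hF hne hN hN' hb hb' hE hw hwF hw' hwF' hwb hwb'
      (fun H h1 h2 => (hall H h1 h2).2) hs hs'
  · exact pb3_key hF hne.symm hN' hN hb' hb (fun H => (hE H).symm) hw' hwF' hw hwF hw'b' hw'b
      (fun H h1 h2 => (hall' H h1 h2).1) hs' hs

end Pool.Agent.Helper13.TSD
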