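import Mathlib
import Pool.Agent.Helper13.TSD.PB1
import Pool.Agent.Helper13.TSD.PB2
import Pool.Agent.Helper13.TSD.PB3

/-!
# TSD-PB4: the types of pairs
-/

namespace Pool.Agent.Helper13.TSD

open Finset Pool.Agent.Helper82.TotSep

variable {V : Type*} [Fintype V] {G : SimpleGraph V} {d : ℕ} {Λ : Type*} {L : FaceData G d}
  {M : Finset V} {lab : V → Λ} {k : ℕ} {F : Finset V}

/-- Every pair is of type `Alpha`, of type `Alpha` in the other order, or of type `Beta`. -/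
theorem prs_cases (h : Ctx L M lab k F) {p : Λ × Λ} (hp : p ∈ prs L M lab k F) :
    (∃ w a, Alpha L M lab k F p.1 p.2 w a) ∨ (∃ w a, Alpha L M lab k F p.2 p.1 w a) ∨
      ∃ w w', Beta L M lab k F p.1 p.2 w w' := by
  obtain ⟨-, hne, v, a, hc, hc'⟩ := mem_prs.mp hp
  obtain ⟨-, -, hg, -⟩ := mem_cls.mp hc
  obtain ⟨-, -, hg', -⟩ := mem_cls.mp hc'
  obtain ⟨hv, -, i, hi, hM, hl⟩ := mem_seers.mp (mem_gs.mp hg).1
  obtain ⟨-, -, i', hi', hM', hl'⟩ := mem_seers.mp (mem_gs.mp hg').1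
  have hlne : lab (L.nb v i) ≠ lab (L.nb v i') := by rw [hl, hl']; exact hne
  obtain ⟨w, hw, hwv, hwQ, hs⟩ := exists_sep h.labOn h.face hv hi hi' hM hM' hlne
  obtain ⟨w', hw', hwv', hwQ', hs'⟩ := exists_sep h.labOn h.face hv hi' hi hM' hM hlne.symm
  rw [hl] at hs
  rw [hl'] at hs'
  by_cases ha : w ∈ a
  · by_cases ha' : w' ∈ a
    · rw [Finset.pair_comm] at hwQ'
      exact Or.inr (Or.inr ⟨w, w', beta_of_mem h hne hc hc' hi hi' hM hM' hl hl' hw hwv hwQ hs ha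
        hw' hwv' hwQ' hs' ha'⟩)
    · exact Or.inr (Or.inl ⟨w', a, alpha_of_notMem h hne.symm hc' hc hi' hi hM' hM hl' hl hw' hwv'
        hwQ' hs' ha'⟩)
  · exact Or.inl ⟨w, a, alpha_of_notMem h hne hc hc' hi hi' hM hM' hl hl' hw hwv hwQ hs ha⟩

end Pool.Agent.Helper13.TSD
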