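import Mathlib
import Pool.Agent.Helper13.TSD.LC

/-!
# TSD-PC1: pairs of the first type
-/

namespace Pool.Agent.Helper13.TSD

open Finset Pool.Agent.Helper82.TotSep

variable {V : Type*} [Fintype V] {G : SimpleGraph V} {d : ℕ} {Λ : Type*} {L : FaceData G d}
  {M : Finset V} {lab : V → Λ} {k : ℕ} {F : Finset V}

/-- `w`, `c` and `a` determine `c'`: `v` is determined by `c` and `a` (`Nice.seer_unique`), `b` is
the other facet of `Zs c` which does not contain `w`, `i'` is determined by `b = opp v i'`. -/
theorem Alpha.unique (hF : IsFace L (k + 1) F) {c c' c'' w a}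
    (h : Alpha L M lab k F c c' w a) (h' : Alpha L M lab k F c c'' w a) : c' = c'' := by
  obtain ⟨-, -, -, -, -, b, -, -, -, hb, v, hv, i, hi, -, hl, hbi⟩ := h
  obtain ⟨-, -, -, -, -, b', hb', hne', hwb', -, v', hv', i', hi', -, hl', hbi'⟩ := h'
  have hbb : b' = b := (hb b' hb' hwb').resolve_left hne'
  have hv1 := mem_cls.mp hv
  have hv2 := mem_cls.mp hv'
  have hvv : v = v' := hv1.2.1.seer_unique hF hv1.2.2.1 hv2.2.2.1 hv1.2.2.2 hv2.2.2.2
  subst hvv
  have hii : i = i' := opp_inj hi (by rw [← hbi, ← hbi', hbb])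
  rw [← hl, ← hl', hii]

open Classical in
/-- At most `4 n` pairs of the first type: `(c, c')` is determined by `(w, c, a)`, where `c` is
one of the at most two labels seen by `w` and `a` one of the two facets of `Zs c` which do not
contain `w`. -/
theorem card_alpha_le (hF : IsFace L (k + 1) F) (S : Finset (Λ × Λ))
    (hS : ∀ p ∈ S, ∃ w a, Alpha L M lab k F p.1 p.2 w a) : S.card ≤ 4 * (inner M F).card := by
  set B : V → Λ → Finset (Finset V) := fun w c =>
    (Zs L M lab k F c).filter fun H => w ∉ H with hBdef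
  set T : Finset (V × Λ × Finset V) := (inner M F).biUnion fun w =>
    ((eqSeen L M lab F w).filter fun _ => (eqSeen L M lab F w).card ≤ 2).biUnion fun c =>
      ((B w c).filter fun _ => (B w c).card ≤ 2).image fun a => (w, c, a) with hT
  have hle : S.card ≤ T.card := by
    refine Finset.card_le_card_of_forall_subsingleton
      (fun p t => p.1 = t.2.1 ∧ Alpha L M lab k F p.1 p.2 t.1 t.2.2) ?_ ?_
    · intro p hp
      obtain ⟨w, a, hw⟩ := hS p hp
      refine ⟨(w, p.1, a), ?_, rfl, hw⟩
      obtain ⟨h1, h2, h3, h4, h5, b, hb, hba, hwb, hall, -⟩ := hw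
      rw [hT, Finset.mem_biUnion]
      refine ⟨w, h1, Finset.mem_biUnion.mpr ⟨p.1, Finset.mem_filter.mpr ⟨h3, h2⟩,
        Finset.mem_image.mpr ⟨a, Finset.mem_filter.mpr ⟨Finset.mem_filter.mpr ⟨h4, h5⟩, ?_⟩, rfl⟩⟩⟩
      have hsub : B w p.1 ⊆ {a, b} := by
        intro H hH
        rw [hBdef, Finset.mem_filter] at hH
        rcases hall H hH.1 hH.2 with h | h
        · rw [h]; simp
        · rw [h]; simp
      exact (Finset.card_le_card hsub).trans Finset.card_le_two
    · rintro ⟨w, c, a⟩ -
      rintro ⟨p1, p2⟩ hp ⟨q1, q2⟩ hq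
      obtain ⟨-, hp1, hp2⟩ := hp
      obtain ⟨-, hq1, hq2⟩ := hq
      simp only at hp1 hp2 hq1 hq2
      subst hp1
      subst hq1
      rw [hp2.unique hF hq2]
  refine hle.trans ?_
  have h4 : T.card ≤ (inner M F).card * 4 := by
    refine Finset.card_biUnion_le_card_mul _ _ _ fun w _ => ?_
    have h2 : ((eqSeen L M lab F w).filter fun _ => (eqSeen L M lab F w).card ≤ 2).card ≤ 2 := by
      by_cases h : (eqSeen L M lab F w).card ≤ 2
      · exact (Finset.card_filter_le _ _).trans h
      · simp [h]
    have h3 := Finset.card_biUnion_le_card_mul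
      ((eqSeen L M lab F w).filter fun _ => (eqSeen L M lab F w).card ≤ 2)
      (fun c => ((B w c).filter fun _ => (B w c).card ≤ 2).image fun a => (w, c, a)) 2
      (fun c _ => Finset.card_image_le.trans (by
        by_cases h : (B w c).card ≤ 2
        · exact (Finset.card_filter_le _ _).trans h
        · simp [h]))
    omega
  omega

end Pool.Agent.Helper13.TSD
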