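import Mathlib
import Pool.Agent.Helper13.TSD.LC

/-!
# TSD-PC2: pairs of the second type
-/

namespace Pool.Agent.Helper13.TSD

open Finset Pool.Agent.Helper82.TotSep

variable {V : Type*} [Fintype V] {G : SimpleGraph V} {d : ℕ} {Λ : Type*} {L : FaceData G d}
  {M : Finset V} {lab : V → Λ} {k : ℕ} {F : Finset V}

open Classical in
/-- Given `w`, `c`: the nodes `w'` of `F` which lie in the `k` facets of `Zs c` different from
`b` are at most two (`exists_dir_of_card`, `eq_or_eq_nb`). -/
theorem card_beta_end_le (hF : IsFace L (k + 1) F) {c : Λ} (hc : Nice L M lab k F c) {w : V}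
    (hw : w ∈ F) {b : Finset V} (hb : b ∈ Zs L M lab k F c) (hwb : w ∉ b)
    (hw' : ∀ H ∈ Zs L M lab k F c, H ≠ b → w ∈ H) :
    (F.filter fun w' => ∀ H ∈ Zs L M lab k F c, H ≠ b → w' ∈ H).card ≤ 2 := by
  have hS : (Zs L M lab k F c).erase b ⊆ thr L k F w := by
    intro H hH
    rw [Finset.mem_erase] at hH
    rw [mem_thr]
    exact ⟨(mem_Zs.mp hH.2).1, hw' H hH.2 hH.1⟩
  have hcard : ((Zs L M lab k F c).erase b).card = k := by
    rw [Finset.card_erase_of_mem hb, hc.1, Nat.add_sub_cancel]
  obtain ⟨i, hi, hiff⟩ := exists_dir_of_card hF hw hS hcard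
  have hsub : (F.filter fun w' => ∀ H ∈ Zs L M lab k F c, H ≠ b → w' ∈ H) ⊆
      {w, L.nb w i} := by
    intro x hx
    rw [Finset.mem_filter] at hx
    rw [Finset.mem_insert, Finset.mem_singleton]
    refine eq_or_eq_nb hF hw hi hx.1 fun H hH hne => ?_
    have h1 := (hiff H).mpr ⟨hH, hne⟩
    rw [Finset.mem_erase] at h1
    exact hx.2 H h1.2 h1.1
  exact (Finset.card_le_card hsub).trans Finset.card_le_two

open Classical in
/-- At most `8 n` pairs of the second type: `w`, two choices for `c`, at most two for `w'`, two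
for `c'`. -/
theorem card_beta_le (hF : IsFace L (k + 1) F) (S : Finset (Λ × Λ))
    (hS : ∀ p ∈ S, ∃ w w', Beta L M lab k F p.1 p.2 w w') : S.card ≤ 8 * (inner M F).card := by
  let E : V → Finset Λ := fun w =>
    if (eqSeen L M lab F w).card ≤ 2 then eqSeen L M lab F w else ∅
  let W : V → Λ → Finset V := fun w c =>
    if (F.filter fun w' => ∀ H ∈ Zs L M lab k F c, w ∈ H → w' ∈ H).card ≤ 2 then
      F.filter fun w' => ∀ H ∈ Zs L M lab k F c, w ∈ H → w' ∈ H else ∅
  have hE : ∀ w, (E w).card ≤ 2 := by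
    intro w
    by_cases h : (eqSeen L M lab F w).card ≤ 2
    · simp only [E, if_pos h]
      exact h
    · simp only [E, if_neg h]
      simp
  have hW : ∀ w c, (W w c).card ≤ 2 := by
    intro w c
    by_cases h : (F.filter fun w' => ∀ H ∈ Zs L M lab k F c, w ∈ H → w' ∈ H).card ≤ 2
    · simp only [W, if_pos h]
      exact h
    · simp only [W, if_neg h]
      simp
  have hsub : S ⊆ (inner M F).biUnion fun w => (E w).biUnion fun c => (W w c).biUnion fun w' =>
      (E w').image fun c' => (c, c') := by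
    rintro ⟨c, c'⟩ hp
    obtain ⟨w, w', h1, h2, h3, h4, h5, h6, h7, b, hb, hwb, hH⟩ := hS _ hp
    simp only at h1 h2 h3 h4 h5 h6 h7 hb hwb hH
    rw [Finset.mem_biUnion]
    refine ⟨w, h1, ?_⟩
    rw [Finset.mem_biUnion]
    refine ⟨c, ?_, ?_⟩
    · simp only [E, if_pos h3]
      exact h5
    rw [Finset.mem_biUnion]
    refine ⟨w', ?_, ?_⟩
    · have heq : (F.filter fun x => ∀ H ∈ Zs L M lab k F c, w ∈ H → x ∈ H) =
          (F.filter fun x => ∀ H ∈ Zs L M lab k F c, H ≠ b → x ∈ H) := by
        ext x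
        rw [Finset.mem_filter, Finset.mem_filter]
        constructor
        · rintro ⟨hx, hx'⟩
          exact ⟨hx, fun H hHZ hne => hx' H hHZ (hH H hHZ hne).1⟩
        · rintro ⟨hx, hx'⟩
          refine ⟨hx, fun H hHZ hwH => hx' H hHZ ?_⟩
          rintro rfl
          exact hwb hwH
      have hle := card_beta_end_le hF h7 (mem_inner.mp h1).1 hb hwb
        (fun H hHZ hne => (hH H hHZ hne).1)
      rw [← heq] at hle
      simp only [W, if_pos hle]
      rw [heq, Finset.mem_filter]
      exact ⟨(mem_inner.mp h2).1, fun H hHZ hne => (hH H hHZ hne).2⟩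
    · rw [Finset.mem_image]
      refine ⟨c', ?_, rfl⟩
      simp only [E, if_pos h4]
      exact h6
  calc S.card ≤ _ := Finset.card_le_card hsub
    _ ≤ (inner M F).card * (2 * (2 * 2)) := by
      refine Finset.card_biUnion_le_card_mul _ _ _ fun w _ => ?_
      refine (Finset.card_biUnion_le_card_mul _ _ (2 * 2) fun c _ => ?_).trans
        (Nat.mul_le_mul_right _ (hE w))
      refine (Finset.card_biUnion_le_card_mul _ _ 2 fun w' _ => ?_).trans
        (Nat.mul_le_mul_right _ (hW w c))
      exact Finset.card_image_le.trans (hE w')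
    _ = 8 * (inner M F).card := by ring

end Pool.Agent.Helper13.TSD
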