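import Mathlib
import Pool.Agent.Helper13.TSD.PB4
import Pool.Agent.Helper13.TSD.PC1
import Pool.Agent.Helper13.TSD.PC2

/-!
# TSD-PC3: the number of pairs
-/

namespace Pool.Agent.Helper13.TSD

open Finset Pool.Agent.Helper82.TotSep

variable {V : Type*} [Fintype V] {G : SimpleGraph V} {d : ℕ} {Λ : Type*} {L : FaceData G d}
  {M : Finset V} {lab : V → Λ} {k : ℕ} {F : Finset V}

/-- `prs_cases`, `card_alpha_le` (twice, the second time for the swapped pairs),
`card_beta_le`. -/
theorem card_prs_le (h : Ctx L M lab k F) :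
    (prs L M lab k F).card ≤ 16 * (inner M F).card := by
  classical
  have hsub : prs L M lab k F ⊆
      ((prs L M lab k F).filter fun p => ∃ w a, Alpha L M lab k F p.1 p.2 w a) ∪
        (((prs L M lab k F).filter fun p => ∃ w a, Alpha L M lab k F p.2 p.1 w a) ∪
          ((prs L M lab k F).filter fun p => ∃ w w', Beta L M lab k F p.1 p.2 w w')) := by
    intro p hp
    rw [Finset.mem_union, Finset.mem_union, Finset.mem_filter, Finset.mem_filter,
      Finset.mem_filter]
    rcases prs_cases h hp with h1 | h1 | h1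
    · exact Or.inl ⟨hp, h1⟩
    · exact Or.inr (Or.inl ⟨hp, h1⟩)
    · exact Or.inr (Or.inr ⟨hp, h1⟩)
  have hA : ((prs L M lab k F).filter fun p => ∃ w a, Alpha L M lab k F p.1 p.2 w a).card ≤
      4 * (inner M F).card :=
    card_alpha_le h.face _ fun p hp => (Finset.mem_filter.1 hp).2
  have hB : ((prs L M lab k F).filter fun p => ∃ w a, Alpha L M lab k F p.2 p.1 w a).card ≤
      4 * (inner M F).card := by
    rw [← Finset.card_image_of_injective _ (Prod.swap_injective (α := Λ) (β := Λ))]
    refine card_alpha_le (lab := lab) h.face _ fun p hp => ?_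
    obtain ⟨q, hq, rfl⟩ := Finset.mem_image.1 hp
    exact (Finset.mem_filter.1 hq).2
  have hC : ((prs L M lab k F).filter fun p => ∃ w w', Beta L M lab k F p.1 p.2 w w').card ≤
      8 * (inner M F).card :=
    card_beta_le h.face _ fun p hp => (Finset.mem_filter.1 hp).2
  have h1 := Finset.card_le_card hsub
  have h2 := (Finset.card_union_le
    ((prs L M lab k F).filter fun p => ∃ w a, Alpha L M lab k F p.1 p.2 w a)
      (((prs L M lab k F).filter fun p => ∃ w a, Alpha L M lab k F p.2 p.1 w a) ∪
          ((prs L M lab k F).filter fun p => ∃ w w', Beta L M lab k F p.1 p.2 w w')))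
  have h3 := (Finset.card_union_le
    ((prs L M lab k F).filter fun p => ∃ w a, Alpha L M lab k F p.2 p.1 w a)
      ((prs L M lab k F).filter fun p => ∃ w w', Beta L M lab k F p.1 p.2 w w'))
  omega

end Pool.Agent.Helper13.TSD
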