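import Mathlib
import Pool.Agent.Helper13.TSD.DB1
import Pool.Agent.Helper13.TSD.DA
import Pool.Agent.Helper13.TSD.PA3
import Pool.Agent.Helper13.TSD.PC3

/-!
# TSD-DB2: seers of nice labels with a big missing facet
-/

namespace Pool.Agent.Helper13.TSD

open Finset Pool.Agent.Helper82.TotSep

variable {V : Type*} [Fintype V] {G : SimpleGraph V} {d : ℕ} {Λ : Type*} {L : FaceData G d}
  {M : Finset V} {lab : V → Λ} {k : ℕ} {F : Finset V}

/-- Sum over `v`: `sum_big_notMem`, Cauchy-Schwarz, `weight_le`, `card_prs_le`: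
`∑ √(2 (k + 1) e v) ≤ √(n * 2 (k + 1) * 16 n) = √32 √(k + 1) n ≤ 6 √(k + 1) n`. -/
theorem sum_sum_cls_le (h : Ctx L M lab k F) :
    (∑ v ∈ inner M F, ∑ a ∈ big L M k F, (cls L M lab k F v a).card : ℝ) ≤
      2 * sg L M k F + 6 * √((k : ℝ) + 1) * (inner M F).card := by
  classical
  set e : V → ℝ := fun v => ∑ a ∈ facets L k F, ((cls L M lab k F v a).card : ℝ) *
          ((cls L M lab k F v a).card - 1) / (ent L F v a + 1) with he
  have he0 : ∀ v, 0 ≤ e v := by
    intro v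
    refine sum_nonneg fun a _ => ?_
    refine div_nonneg ?_ (by positivity)
    rcases Nat.eq_zero_or_pos (cls L M lab k F v a).card with h0 | h0
    · rw [h0]; simp
    · have h1 : (1 : ℝ) ≤ (cls L M lab k F v a).card := by exact_mod_cast h0
      exact mul_nonneg (by linarith) (by linarith)
  have h1 : (∑ v ∈ inner M F, ∑ a ∈ big L M k F, (cls L M lab k F v a).card : ℝ) ≤
      ∑ v ∈ inner M F, ((((big L M k F).filter fun H => v ∉ H).card : ℝ) +
        √(2 * (k + 1) * e v)) := by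
    refine sum_le_sum fun v hv => ?_
    exact sum_cls_big_le h.face (mem_inner.mp hv).1
  have h2 := sum_big_notMem (L := L) (k := k) (F := F) M
  have h3 : ∑ v ∈ inner M F, e v ≤ 16 * ((inner M F).card : ℝ) := by
    refine (weight_le h.face).trans ?_
    exact_mod_cast card_prs_le h
  have h4 : (∑ v ∈ inner M F, √(2 * ((k : ℝ) + 1) * e v)) ^ 2 ≤
      (6 * √((k : ℝ) + 1) * (inner M F).card) ^ 2 := by
    refine (sq_sum_le_card_mul_sum_sq).trans ?_
    have h5 : ∑ v ∈ inner M F, √(2 * ((k : ℝ) + 1) * e v) ^ 2 =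
        2 * ((k : ℝ) + 1) * ∑ v ∈ inner M F, e v := by
      rw [mul_sum]
      refine sum_congr rfl fun v _ => ?_
      rw [Real.sq_sqrt]
      have := he0 v
      positivity
    rw [h5, mul_pow, mul_pow, Real.sq_sqrt (by positivity)]
    have hn : (0 : ℝ) ≤ (inner M F).card := Nat.cast_nonneg _
    have hk : (0 : ℝ) ≤ (k : ℝ) + 1 := by positivity
    have h6 : 2 * ((k : ℝ) + 1) * ∑ v ∈ inner M F, e v ≤
        2 * ((k : ℝ) + 1) * (16 * ((inner M F).card : ℝ)) :=
      mul_le_mul_of_nonneg_left h3 (by positivity)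
    calc ((inner M F).card : ℝ) * (2 * ((k : ℝ) + 1) * ∑ v ∈ inner M F, e v)
        ≤ ((inner M F).card : ℝ) * (2 * ((k : ℝ) + 1) * (16 * ((inner M F).card : ℝ))) :=
          mul_le_mul_of_nonneg_left h6 hn
      _ = 32 * (((k : ℝ) + 1) * ((inner M F).card : ℝ) ^ 2) := by ring
      _ ≤ 36 * (((k : ℝ) + 1) * ((inner M F).card : ℝ) ^ 2) := by
          have : 0 ≤ ((k : ℝ) + 1) * ((inner M F).card : ℝ) ^ 2 := by positivity
          linarith
      _ = 6 ^ 2 * ((k : ℝ) + 1) * ((inner M F).card : ℝ) ^ 2 := by ring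
  have h7 : ∑ v ∈ inner M F, √(2 * ((k : ℝ) + 1) * e v) ≤
      6 * √((k : ℝ) + 1) * (inner M F).card :=
    (pow_le_pow_iff_left₀ (sum_nonneg fun _ _ => Real.sqrt_nonneg _) (by positivity)
      two_ne_zero).mp h4
  rw [sum_add_distrib] at h1
  linarith

end Pool.Agent.Helper13.TSD
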