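import Mathlib
import Pool.Agent.Helper13.TSD.LA

/-!
# TSD-DC1: labels with many poor seers
-/

namespace Pool.Agent.Helper13.TSD

open Finset Pool.Agent.Helper82.TotSep

variable {V : Type*} [Fintype V] {G : SimpleGraph V} {d : ℕ} {Λ : Type*} {L : FaceData G d}
  {M : Finset V} {lab : V → Λ} {k : ℕ} {F : Finset V}

open Classical in
/-- `(k + 1) / 4 * |K1| ≤ ∑ c, #{seers of c which see at most 2 labels} =
∑ {v : sees at most 2} (number of labels seen) ≤ 2 n`. -/
theorem card_K1_le (hF : IsFace L (k + 1) F) :
    (k + 1) * (K1 L M lab k F).card ≤ 8 * (inner M F).card := by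
  have h1 : ∀ c ∈ labs M lab F,
      ((seers L M lab F c).filter fun w => (eqSeen L M lab F w).card ≤ 2).card =
      ∑ w ∈ inner M F,
        if Sees L M lab F w c ∧ (eqSeen L M lab F w).card ≤ 2 then 1 else 0 := by
    intro c _
    rw [← Finset.card_filter]
    congr 1
    ext w
    rw [Finset.mem_filter, mem_seers, Finset.mem_filter, mem_inner]
    tauto
  have h2 : ∀ w ∈ inner M F, ∑ c ∈ labs M lab F,
      (if Sees L M lab F w c ∧ (eqSeen L M lab F w).card ≤ 2 then 1 else 0) ≤ 2 := by
    intro w _
    by_cases h : (eqSeen L M lab F w).card ≤ 2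
    · simp only [h, and_true]
      rw [← Finset.card_filter]
      refine le_trans (Finset.card_le_card ?_) h
      intro a ha
      exact mem_eqSeen.mpr (Finset.mem_filter.mp ha).2
    · simp [h]
  have h3 : ∑ c ∈ labs M lab F,
      ((seers L M lab F c).filter fun w => (eqSeen L M lab F w).card ≤ 2).card ≤
      2 * (inner M F).card := by
    rw [Finset.sum_congr rfl h1, Finset.sum_comm]
    calc _ ≤ ∑ _w ∈ inner M F, 2 := Finset.sum_le_sum h2
      _ = 2 * (inner M F).card := by rw [Finset.sum_const, smul_eq_mul, mul_comm]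
  calc (k + 1) * (K1 L M lab k F).card = ∑ _c ∈ K1 L M lab k F, (k + 1) := by
        rw [Finset.sum_const, smul_eq_mul, mul_comm]
    _ ≤ ∑ c ∈ K1 L M lab k F,
        4 * ((seers L M lab F c).filter fun w => (eqSeen L M lab F w).card ≤ 2).card := by
        refine Finset.sum_le_sum fun c hc => ?_
        unfold K1 at hc
        exact (Finset.mem_filter.mp hc).2
    _ ≤ ∑ c ∈ labs M lab F,
        4 * ((seers L M lab F c).filter fun w => (eqSeen L M lab F w).card ≤ 2).card := by
        refine Finset.sum_le_sum_of_subset ?_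
        unfold K1
        exact Finset.filter_subset _ _
    _ = 4 * ∑ c ∈ labs M lab F,
        ((seers L M lab F c).filter fun w => (eqSeen L M lab F w).card ≤ 2).card :=
        (Finset.mul_sum _ _ _).symm
    _ ≤ 4 * (2 * (inner M F).card) := Nat.mul_le_mul_left _ h3
    _ = 8 * (inner M F).card := by ring

/-- A label which is not in `K1` has more than `3 (k + 1) / 4` good seers (`card_seers`). -/
theorem card_gs_of_notMem_K1 (h : Ctx L M lab k F) {c : Λ} (hc : c ∈ labs M lab F)
    (hK : c ∉ K1 L M lab k F) : 3 * (k + 1) < 4 * (gs L M lab F c).card := by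
  classical
  have h1 := card_seers h.labOn h.face h.two hc
  have h2 : 4 * ((seers L M lab F c).filter fun w => (eqSeen L M lab F w).card ≤ 2).card <
      k + 1 := by
    by_contra hn
    apply hK
    unfold K1
    rw [Finset.mem_filter]
    exact ⟨hc, not_lt.mp hn⟩
  have h3 : (gs L M lab F c).card +
      ((seers L M lab F c).filter fun w => (eqSeen L M lab F w).card ≤ 2).card =
      (seers L M lab F c).card := by
    rw [← Finset.card_filter_add_card_filter_not (s := seers L M lab F c)
      (fun w => 3 ≤ (eqSeen L M lab F w).card)]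
    congr 2
    refine Finset.filter_congr fun w _ => ?_
    omega
  omega

end Pool.Agent.Helper13.TSD
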