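import Mathlib
import Pool.Agent.Helper13.TSD.LC
import Pool.Agent.Helper13.TSD.DA
import Pool.Agent.Helper13.TSD.DC1

/-!
# TSD-DC2: nice labels with many facets which are not big
-/

namespace Pool.Agent.Helper13.TSD

open Finset Pool.Agent.Helper82.TotSep

variable {V : Type*} [Fintype V] {G : SimpleGraph V} {d : ℕ} {Λ : Type*} {L : FaceData G d}
  {M : Finset V} {lab : V → Λ} {k : ℕ} {F : Finset V}

open Classical in
/-- For a nice label and a good seer `v`: all but one of the facets of `Zs c` contain `v`. -/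
theorem card_notBig_le (hF : IsFace L (k + 1) F) {c : Λ} (hc : Nice L M lab k F c) {v : V}
    (hv : v ∈ gs L M lab F c) : ((Zs L M lab k F c).filter fun H => H ∉ big L M k F).card ≤
      ((thr L k F v).filter fun H => H ∉ big L M k F).card + 1 := by
  obtain ⟨a, -, -, ha⟩ := hc.exists_miss hF hv
  have h1 : ((Zs L M lab k F c).filter fun H => H ∉ big L M k F) ⊆
      insert a ((thr L k F v).filter fun H => H ∉ big L M k F) := by
    intro H hH
    rw [Finset.mem_filter] at hH
    rw [Finset.mem_insert, Finset.mem_filter, mem_thr]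
    by_cases hvH : v ∈ H
    · exact Or.inr ⟨⟨(mem_Zs.1 hH.1).1, hvH⟩, hH.2⟩
    · exact Or.inl (ha H hH.1 hvH)
  exact (Finset.card_le_card h1).trans (Finset.card_insert_le _ _)

open Classical in
/-- Let `s v = #{H ∈ thr v, H not big}`.  For `c ∈ K3` all good seers have
`4 (s v + 1) > k + 1`, so `8 s v ≥ k + 1` as `k + 1 ≥ 8`.  Then
`3 (k + 1) / 4 * |K3| ≤ ∑ c ∈ K3, |gs c| ≤ ∑ {v : 8 s v ≥ k + 1} (labels seen) ≤
∑ v, (k + 1) * 8 s v / (k + 1) = 8 ∑ s v ≤ 16 sg`. -/
theorem card_K3_le (h : Ctx L M lab k F) (hk : 8 ≤ k + 1) :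
    ((k : ℝ) + 1) * (K3 L M lab k F).card ≤ 22 * sg L M k F := by
  set s : V → ℕ := fun v => ((thr L k F v).filter fun H => H ∉ big L M k F).card with hs
  have hgs : ∀ c, (inner M F).filter (fun v => v ∈ gs L M lab F c) = gs L M lab F c := by
    intro c
    ext v
    rw [Finset.mem_filter, mem_inner]
    constructor
    · exact fun hv => hv.2
    · intro hv
      have := mem_seers.1 (mem_gs.1 hv).1
      exact ⟨⟨this.1, this.2.1⟩, hv⟩
  have h1 : ∑ c ∈ K3 L M lab k F, (gs L M lab F c).card =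
      ∑ v ∈ inner M F, ((K3 L M lab k F).filter fun c => v ∈ gs L M lab F c).card := by
    have := Finset.sum_card_bipartiteAbove_eq_sum_card_bipartiteBelow
      (s := K3 L M lab k F) (t := inner M F) (fun c v => v ∈ gs L M lab F c)
    simp only [Finset.bipartiteAbove, Finset.bipartiteBelow] at this
    rw [← this]
    exact Finset.sum_congr rfl fun c _ => by rw [hgs]
  have h2 : ∀ v ∈ inner M F, ((K3 L M lab k F).filter fun c => v ∈ gs L M lab F c).card ≤
      8 * s v := by
    intro v hv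
    rcases Finset.eq_empty_or_nonempty ((K3 L M lab k F).filter fun c => v ∈ gs L M lab F c)
      with h0 | ⟨c, hc⟩
    · rw [h0, Finset.card_empty]
      exact Nat.zero_le _
    · have h3 : ((K3 L M lab k F).filter fun c => v ∈ gs L M lab F c) ⊆
          eqSeen L M lab F v := by
        intro c' hc'
        rw [Finset.mem_filter] at hc'
        exact mem_eqSeen.2 (mem_seers.1 (mem_gs.1 hc'.2).1).2.2
      have h4 := (Finset.card_le_card h3).trans (card_eqSeen_le h.face (mem_inner.1 hv).1)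
      rw [Finset.mem_filter, K3, Finset.mem_filter] at hc
      have h5 := card_notBig_le h.face hc.1.2.2.1 hc.2
      have h6 := hc.1.2.2.2
      have h7 : k + 1 < 4 * (s v + 1) := lt_of_lt_of_le h6 (Nat.mul_le_mul_left 4 h5)
      omega
  have h3 : ∀ c ∈ K3 L M lab k F, 3 * (k + 1) ≤ 4 * (gs L M lab F c).card := by
    intro c hc
    rw [K3, Finset.mem_filter] at hc
    exact (card_gs_of_notMem_K1 h hc.1 hc.2.1).le
  have h4 : 3 * (k + 1) * (K3 L M lab k F).card ≤ 32 * ∑ v ∈ inner M F, s v := by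
    calc 3 * (k + 1) * (K3 L M lab k F).card
        = ∑ c ∈ K3 L M lab k F, 3 * (k + 1) := by
          rw [Finset.sum_const, smul_eq_mul, mul_comm]
      _ ≤ ∑ c ∈ K3 L M lab k F, 4 * (gs L M lab F c).card := Finset.sum_le_sum h3
      _ = 4 * ∑ v ∈ inner M F, ((K3 L M lab k F).filter fun c => v ∈ gs L M lab F c).card := by
          rw [← Finset.mul_sum, h1]
      _ ≤ 4 * ∑ v ∈ inner M F, 8 * s v := Nat.mul_le_mul_left 4 (Finset.sum_le_sum h2)
      _ = 32 * ∑ v ∈ inner M F, s v := by rw [← Finset.mul_sum]; ring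
  have h5 : (∑ v ∈ inner M F, s v : ℝ) ≤ 2 * sg L M k F := sum_thr_notBig M
  have h6 : (3 * ((k : ℝ) + 1)) * (K3 L M lab k F).card ≤ 32 * ∑ v ∈ inner M F, (s v : ℝ) := by
    exact_mod_cast h4
  have h7 : 0 ≤ sg L M k F := sg_nonneg M
  linarith

end Pool.Agent.Helper13.TSD
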