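import Mathlib
import Pool.Agent.Helper13.TSD.LC
import Pool.Agent.Helper13.TSD.DC1

/-!
# TSD-DC3: nice labels with few facets which are not big
-/

namespace Pool.Agent.Helper13.TSD

open Finset Pool.Agent.Helper82.TotSep

variable {V : Type*} [Fintype V] {G : SimpleGraph V} {d : ℕ} {Λ : Type*} {L : FaceData G d}
  {M : Finset V} {lab : V → Λ} {k : ℕ} {F : Finset V}

open Classical in
/-- the good seers of a label in `K4` with a big missing facet -/
private theorem dc3_aux (h : Ctx L M lab k F) {c : Λ} (hc : c ∈ K4 L M lab k F) :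
    k + 1 ≤ 2 * ((inner M F).filter fun v => ∃ a ∈ big L M k F, c ∈ cls L M lab k F v a).card := by
  rw [K4, Finset.mem_filter] at hc
  obtain ⟨hcl, hK1, hN, hnb⟩ := hc
  have h1 := card_gs_of_notMem_K1 h hcl hK1
  have hm : ∀ v : V, ∃ a : Finset V, v ∈ gs L M lab F c → Miss L M lab k F c v a := by
    intro v
    by_cases hv : v ∈ gs L M lab F c
    · obtain ⟨a, ha⟩ := hN.exists_miss h.face hv
      exact ⟨a, fun _ => ha⟩
    · exact ⟨∅, fun h => absurd h hv⟩
  choose a ha using hm
  have h2 : ((gs L M lab F c).filter fun v => a v ∉ big L M k F).card ≤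
      ((Zs L M lab k F c).filter fun H => H ∉ big L M k F).card := by
    apply Finset.card_le_card_of_injOn a
    · intro v hv
      rw [Finset.mem_coe, Finset.mem_filter] at hv ⊢
      exact ⟨(ha v hv.1).1, hv.2⟩
    · intro v hv v' hv' he
      rw [Finset.mem_coe, Finset.mem_filter] at hv hv'
      have h3 := ha v' hv'.1
      rw [← he] at h3
      exact hN.seer_unique h.face hv.1 hv'.1 (ha v hv.1) h3
  have h3 : ((gs L M lab F c).filter fun v => a v ∈ big L M k F).card ≤
      ((inner M F).filter fun v => ∃ a ∈ big L M k F, c ∈ cls L M lab k F v a).card := by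
    apply Finset.card_le_card
    intro v hv
    rw [Finset.mem_filter] at hv ⊢
    have hs := mem_seers.mp (mem_gs.mp hv.1).1
    refine ⟨mem_inner.mpr ⟨hs.1, hs.2.1⟩, a v, hv.2, ?_⟩
    exact mem_cls.mpr ⟨hcl, hN, hv.1, ha v hv.1⟩
  have h4 := Finset.card_filter_add_card_filter_not (s := gs L M lab F c)
    (fun v => a v ∈ big L M k F)
  omega

open Classical in
/-- For `c ∈ K4` at least half of `k + 1` good seers have a big missing facet (the missing facets
of different good seers are different, `Nice.seer_unique`).  Hence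
`(k + 1) / 2 * |K4| ≤ ∑ v, ∑ a ∈ big, |cls v a|`. -/
theorem card_K4_le (h : Ctx L M lab k F) :
    ((k : ℝ) + 1) * (K4 L M lab k F).card ≤
      2 * ∑ v ∈ inner M F, ∑ a ∈ big L M k F, ((cls L M lab k F v a).card : ℝ) := by
  have h1 : (k + 1) * (K4 L M lab k F).card ≤ ∑ c ∈ K4 L M lab k F,
      2 * ((inner M F).filter fun v => ∃ a ∈ big L M k F, c ∈ cls L M lab k F v a).card := by
    rw [mul_comm, ← smul_eq_mul, ← Finset.sum_const]
    exact Finset.sum_le_sum fun c hc => dc3_aux h hc
  have h2 : ∑ c ∈ K4 L M lab k F,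
      ((inner M F).filter fun v => ∃ a ∈ big L M k F, c ∈ cls L M lab k F v a).card ≤
      ∑ v ∈ inner M F, ∑ a ∈ big L M k F, (cls L M lab k F v a).card := by
    have h3 := Finset.sum_card_bipartiteAbove_eq_sum_card_bipartiteBelow
      (s := K4 L M lab k F) (t := inner M F)
      (fun c v => ∃ a ∈ big L M k F, c ∈ cls L M lab k F v a)
    simp only [Finset.bipartiteAbove, Finset.bipartiteBelow] at h3
    rw [h3]
    refine Finset.sum_le_sum fun v _ => ?_
    have h4 : ((K4 L M lab k F).filter fun c => ∃ a ∈ big L M k F, c ∈ cls L M lab k F v a) ⊆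
        (big L M k F).biUnion fun a => cls L M lab k F v a := by
      intro c hc
      rw [Finset.mem_filter] at hc
      obtain ⟨a, ha, hca⟩ := hc.2
      exact Finset.mem_biUnion.mpr ⟨a, ha, hca⟩
    exact (Finset.card_le_card h4).trans Finset.card_biUnion_le
  rw [← Finset.mul_sum] at h1
  have h5 := h1.trans (Nat.mul_le_mul_left 2 h2)
  exact_mod_cast h5

end Pool.Agent.Helper13.TSD
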