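import Mathlib
import Pool.Agent.Helper13.TSD.LB2
import Pool.Agent.Helper13.TSD.DC1

/-!
# TSD-DD1: sum over the real facets
-/

namespace Pool.Agent.Helper13.TSD

open Finset Pool.Agent.Helper82.TotSep

variable {V : Type*} [Fintype V] {G : SimpleGraph V} {d : ℕ} {Λ : Type*} {L : FaceData G d}
  {M : Finset V} {lab : V → Λ} {k : ℕ} {F : Finset V}

/-- `∑ H ∈ rfc, #labels of H = ∑ c, |Zs c|`. -/
theorem sum_rfc : ∑ H ∈ rfc L M lab k F, (labs M lab H).card =
    ∑ c ∈ labs M lab F, (Zs L M lab k F c).card := by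
  classical
  have h1 : ∀ H ∈ rfc L M lab k F, (labs M lab H).card =
      (bipartiteAbove (fun (H : Finset V) (c : Λ) => c ∈ labs M lab H) (labs M lab F) H).card := by
    intro H hH
    congr 1
    ext c
    rw [mem_bipartiteAbove]
    refine ⟨fun hc => ⟨?_, hc⟩, fun hc => hc.2⟩
    obtain ⟨x, hx, hxM, hxc⟩ := mem_labs.1 hc
    exact mem_labs.2 ⟨x, (mem_facets.1 (mem_rfc.1 hH).1).1 hx, hxM, hxc⟩
  have h2 : ∀ c ∈ labs M lab F, (Zs L M lab k F c).card =
      (bipartiteBelow (fun (H : Finset V) (c : Λ) => c ∈ labs M lab H)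
        (rfc L M lab k F) c).card := by
    intro c _
    congr 1
    ext H
    rw [mem_bipartiteBelow, mem_Zs, mem_rfc]
    tauto
  rw [sum_congr rfl h1, sum_congr rfl h2]
  exact sum_card_bipartiteAbove_eq_sum_card_bipartiteBelow _

/-- Labels in `K1` have `|Zs c| ≥ k - 1`, those in `K3` and `K4` have `|Zs c| = k + 1`, all the
others have `|Zs c| ≥ k + 2` (they have two good seers, so at least `k + 1` by `card_Zs_ge`, and
are not nice). -/
theorem main_card (h : Ctx L M lab k F) (hk : 8 ≤ k + 1) :
    (k + 2) * (labs M lab F).card ≤ ∑ H ∈ rfc L M lab k F, (labs M lab H).card +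
      3 * (K1 L M lab k F).card + (K3 L M lab k F).card + (K4 L M lab k F).card := by
  classical
  have hK : ∀ K : Finset Λ, K ⊆ labs M lab F →
      K.card = ∑ c ∈ labs M lab F, if c ∈ K then 1 else 0 := by
    intro K hKs
    rw [← card_filter, filter_mem_eq_inter, inter_eq_right.2 hKs]
  have h1s : K1 L M lab k F ⊆ labs M lab F := by
    unfold K1; exact filter_subset _ _
  have h3s : K3 L M lab k F ⊆ labs M lab F := by
    unfold K3; exact filter_subset _ _
  have h4s : K4 L M lab k F ⊆ labs M lab F := by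
    unfold K4; exact filter_subset _ _
  rw [sum_rfc, hK _ h1s, hK _ h3s, hK _ h4s, mul_sum, ← sum_add_distrib, ← sum_add_distrib,
    ← sum_add_distrib, mul_comm, ← smul_eq_mul, ← sum_const]
  refine sum_le_sum fun c hc => ?_
  by_cases hc1 : c ∈ K1 L M lab k F
  · have := h.le_card_Zs hc
    rw [if_pos hc1]
    omega
  · have hg := card_gs_of_notMem_K1 h hc hc1
    have hg2 : 2 ≤ (gs L M lab F c).card := by omega
    have hz := card_Zs_ge h.face hg2
    by_cases hn : Nice L M lab k F c
    · by_cases hb : k + 1 < 4 * ((Zs L M lab k F c).filter fun H => H ∉ big L M k F).card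
      · have hc3 : c ∈ K3 L M lab k F := by
          unfold K3
          rw [mem_filter]
          exact ⟨hc, hc1, hn, by convert hb⟩
        rw [if_pos hc3]
        omega
      · have hc4 : c ∈ K4 L M lab k F := by
          unfold K4
          rw [mem_filter]
          exact ⟨hc, hc1, hn, by convert not_lt.1 hb⟩
        rw [if_pos hc4]
        omega
    · have hne : (Zs L M lab k F c).card ≠ k + 1 := fun he => hn ⟨he, hg2⟩
      omega

end Pool.Agent.Helper13.TSD
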