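import Mathlib
import Pool.Agent.Helper13.TSD.DD1
import Pool.Agent.Helper13.TSD.DB2
import Pool.Agent.Helper13.TSD.DC2
import Pool.Agent.Helper13.TSD.DC3

/-!
# TSD-DD2: the main inequality
-/

namespace Pool.Agent.Helper13.TSD

open Finset Pool.Agent.Helper82.TotSep

variable {V : Type*} [Fintype V] {G : SimpleGraph V} {d : ℕ} {Λ : Type*} {L : FaceData G d}
  {M : Finset V} {lab : V → Λ} {k : ℕ} {F : Finset V}

/-- **The main inequality**, with `j = k + 1`: `(j + 1) K ≤ ∑ K_H + (24 n + 26 sg) / j +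
12 n / √j` (`main_card`, `card_K1_le`, `card_K3_le`, `card_K4_le`, `sum_sum_cls_le`). -/
theorem main_ineq (h : Ctx L M lab k F) (hk : 8 ≤ k + 1) :
    ((k : ℝ) + 2) * (labs M lab F).card ≤ ∑ H ∈ rfc L M lab k F, ((labs M lab H).card : ℝ) +
      (24 * (inner M F).card + 26 * sg L M k F) / (k + 1) +
      12 * (inner M F).card / √((k : ℝ) + 1) := by
  have hj : (0 : ℝ) < (k : ℝ) + 1 := by positivity
  have h0 := main_card h hk
  have h1 := card_K1_le (M := M) (lab := lab) h.face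
  have h3 := card_K3_le h hk
  have h4 := card_K4_le h
  have h5 := sum_sum_cls_le h
  have h0' : ((k : ℝ) + 2) * (labs M lab F).card ≤
      ∑ H ∈ rfc L M lab k F, ((labs M lab H).card : ℝ) +
      3 * (K1 L M lab k F).card + (K3 L M lab k F).card + (K4 L M lab k F).card := by
    exact_mod_cast h0
  have h1' : ((k : ℝ) + 1) * (K1 L M lab k F).card ≤ 8 * (inner M F).card := by
    exact_mod_cast h1
  have e1 : (3 : ℝ) * (K1 L M lab k F).card ≤ 24 * (inner M F).card / ((k : ℝ) + 1) := by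
    rw [le_div_iff₀ hj]
    nlinarith
  have e3 : ((K3 L M lab k F).card : ℝ) ≤ 22 * sg L M k F / ((k : ℝ) + 1) := by
    rw [le_div_iff₀ hj]
    linarith
  have e5 : 12 * (inner M F).card / √((k : ℝ) + 1) * ((k : ℝ) + 1) =
      12 * √((k : ℝ) + 1) * (inner M F).card := by
    have hs : √((k : ℝ) + 1) * √((k : ℝ) + 1) = (k : ℝ) + 1 := Real.mul_self_sqrt hj.le
    have hp : 0 < √((k : ℝ) + 1) := Real.sqrt_pos.mpr hj
    nth_rewrite 2 [← hs]
    field_simp
  have e4 : ((K4 L M lab k F).card : ℝ) ≤ 4 * sg L M k F / ((k : ℝ) + 1) +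
      12 * (inner M F).card / √((k : ℝ) + 1) := by
    have e6 : ((K4 L M lab k F).card : ℝ) * ((k : ℝ) + 1) ≤
        (4 * sg L M k F / ((k : ℝ) + 1) + 12 * (inner M F).card / √((k : ℝ) + 1)) *
          ((k : ℝ) + 1) := by
      rw [add_mul, div_mul_cancel₀ _ hj.ne', e5]
      linarith
    exact le_of_mul_le_mul_right e6 hj
  have e7 : (24 * ((inner M F).card : ℝ) + 26 * sg L M k F) / ((k : ℝ) + 1) =
      24 * (inner M F).card / ((k : ℝ) + 1) + 22 * sg L M k F / ((k : ℝ) + 1) +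
        4 * sg L M k F / ((k : ℝ) + 1) := by
    ring
  rw [e7]
  linarith

end Pool.Agent.Helper13.TSD
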