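import Mathlib
import Pool.Agent.Helper13.TSD.Defs

/-!
# TSD-EA1: the bound
-/

namespace Pool.Agent.Helper13.TSD

open Finset Pool.Agent.Helper82.TotSep

private lemma EA1_log (n : ℕ) : 0 ≤ Real.log n := Real.log_natCast_nonneg n

lemma bd_nonneg (j n : ℕ) : 0 ≤ bd j n := by
  unfold bd
  have h := EA1_log n
  positivity

/-- `n ≤ bd j n` if `√j ≤ 30` or `j ≤ 30 log n` (`j ≥ 1`, `n ≥ 1`). -/
theorem le_bd {j n : ℕ} (hj : 1 ≤ j) (h : √(j : ℝ) ≤ 30 ∨ (j : ℝ) ≤ 30 * Real.log n) :
    (n : ℝ) ≤ bd j n := by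
  have hj0 : (0 : ℝ) < j := by exact_mod_cast hj
  have hs : 0 < √(j : ℝ) := Real.sqrt_pos.2 hj0
  have hl := EA1_log n
  have hn : (0 : ℝ) ≤ n := Nat.cast_nonneg n
  have h1 : 0 ≤ 1 / √(j : ℝ) := by positivity
  have h2 : 0 ≤ Real.log n / j := by positivity
  have h3 : 1 ≤ 30 * (1 / √(j : ℝ) + Real.log n / j) := by
    rcases h with h | h
    · have h4 : 1 ≤ 30 * (1 / √(j : ℝ)) := by
        rw [mul_one_div, le_div_iff₀ hs]
        linarith
      linarith
    · have h4 : 1 ≤ 30 * (Real.log n / j) := by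
        rw [← mul_div_assoc, le_div_iff₀ hj0]
        linarith
      linarith
  have h5 : bd j n = n * (30 * (1 / √(j : ℝ) + Real.log n / j)) := by
    unfold bd
    ring
  rw [h5]
  exact le_mul_of_one_le_right hn h3

/-- `log` of a part: `x log x ≤ x log n - x (n - x) / n` for `x ≤ n`, `n ≥ 1` (naturals; for
`x = 0` both sides are `0`): `log (x / n) ≤ x / n - 1`. -/
theorem mul_log_le {x n : ℕ} (hx : x ≤ n) (hn : 1 ≤ n) :
    (x : ℝ) * Real.log x ≤ x * Real.log n - (x : ℝ) * ((n : ℝ) - x) / n := by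
  rcases Nat.eq_zero_or_pos x with h0 | h0
  · subst h0
    simp
  · have hx0 : (0 : ℝ) < x := by exact_mod_cast h0
    have hn0 : (0 : ℝ) < n := by exact_mod_cast hn
    have h1 := Real.log_le_sub_one_of_pos (div_pos hx0 hn0)
    rw [Real.log_div hx0.ne' hn0.ne'] at h1
    have h2 := mul_le_mul_of_nonneg_left h1 hx0.le
    have h3 : (x : ℝ) * ((n : ℝ) - x) / n = x - x * (x / n) := by
      field_simp
    rw [h3]
    linarith

theorem bd_mono (j : ℕ) : Monotone (bd j) := by
  intro a b hab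
  rcases Nat.eq_zero_or_pos a with h0 | h0
  · subst h0
    have h1 : bd j 0 = 0 := by
      unfold bd
      simp
    rw [h1]
    exact bd_nonneg j b
  · have ha : (0 : ℝ) < a := by exact_mod_cast h0
    have hab' : (a : ℝ) ≤ b := by exact_mod_cast hab
    have h1 : Real.log a ≤ Real.log b := Real.log_le_log ha hab'
    have h2 := EA1_log a
    unfold bd
    have h3 : (1 / √(j : ℝ) + Real.log a / j) ≤ (1 / √(j : ℝ) + Real.log b / j) := by
      have h4 : Real.log a / j ≤ Real.log b / j :=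
        div_le_div_of_nonneg_right h1 (Nat.cast_nonneg j)
      linarith
    have h5 : 0 ≤ 1 / √(j : ℝ) + Real.log a / j := by positivity
    exact mul_le_mul (by linarith) h3 h5 (by positivity)

end Pool.Agent.Helper13.TSD
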