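import Mathlib
import Pool.Agent.Helper13.TSD.EA1

/-!
# TSD-EA2: the closing inequality
-/

namespace Pool.Agent.Helper13.TSD

open Finset Pool.Agent.Helper82.TotSep

/-- The closing inequality, `j = k + 1`.  If `n_H` sum up to `j n`, `s = ∑ n_H (n - n_H) / n`,
`(j + 1) K ≤ ∑ bd (j - 1) n_H + (24 n + 26 s) / j + 12 n / √j`, then `K ≤ bd j n`, provided that
`√j > 30` and `30 log n < j`.
Proof: `∑ bd (j - 1) n_H ≤ 30 (j n / √(j - 1) + (j n log n - s) / (j - 1))` by `mul_log_le`;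
`30 s / (j - 1) ≥ 26 s / j`; and
`(j + 1) / √j - j / √(j - 1) ≥ 1 / √j - √j / (2 (j - 1)) ≥ 0.499 / √j`,
`(j + 1) log n / j - j log n / (j - 1) = - log n / (j (j - 1)) ≥ - 1 / (30 (j - 1))`,
and `30 * 0.499 / √j ≥ 12 / √j + 24 / j + 1 / (j - 1)` for `√j > 30`. -/
theorem closing {ι : Type*} (S : Finset ι) (x : ι → ℕ) {k n K : ℕ} (hn : 1 ≤ n)
    (hx : ∀ i ∈ S, x i ≤ n) (hsum : ∑ i ∈ S, x i = (k + 1) * n) {s : ℝ}
    (hs : s = ∑ i ∈ S, (x i : ℝ) * ((n : ℝ) - x i) / n)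
    (hj : 30 < √((k : ℝ) + 1)) (hlog : 30 * Real.log n < k + 1)
    (h : ((k : ℝ) + 2) * K ≤ ∑ i ∈ S, bd k (x i) + (24 * n + 26 * s) / (k + 1) +
      12 * n / √((k : ℝ) + 1)) : (K : ℝ) ≤ bd (k + 1) n := by
  have hnR : (1 : ℝ) ≤ n := by exact_mod_cast hn
  have hn0 : (0 : ℝ) < n := by linarith
  set r : ℝ := √((k : ℝ) + 1) with hr
  have hr2 : r ^ 2 = (k : ℝ) + 1 := Real.sq_sqrt (by positivity)
  have hk0 : (0 : ℝ) < k := by nlinarith
  set q : ℝ := √(k : ℝ) with hq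
  have hq2 : q ^ 2 = (k : ℝ) := Real.sq_sqrt hk0.le
  have hq0 : 0 < q := Real.sqrt_pos.2 hk0
  have hr0 : 0 < r := by linarith
  set l : ℝ := Real.log n with hl
  have hl0 : 0 ≤ l := Real.log_nonneg hnR
  have hs0 : 0 ≤ s := by
    rw [hs]
    refine sum_nonneg fun i hi => ?_
    have : (x i : ℝ) ≤ n := by exact_mod_cast hx i hi
    have h1 : 0 ≤ (n : ℝ) - x i := by linarith
    positivity
  have hsumR : ∑ i ∈ S, (x i : ℝ) = ((k : ℝ) + 1) * n := by
    have := congrArg (Nat.cast : ℕ → ℝ) hsum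
    push_cast at this
    exact this
  have hbd : ∑ i ∈ S, bd k (x i) ≤
      30 * (((k : ℝ) + 1) * n / q + (((k : ℝ) + 1) * n * l - s) / k) := by
    have h1 : ∀ i ∈ S, bd k (x i) ≤
        30 / q * (x i : ℝ) + 30 * l / k * (x i : ℝ) -
          30 / k * ((x i : ℝ) * ((n : ℝ) - x i) / n) := by
      intro i hi
      have h2 := mul_log_le (hx i hi) hn
      have h3 : (x i : ℝ) * Real.log (x i) / k ≤
          ((x i : ℝ) * l - (x i : ℝ) * ((n : ℝ) - x i) / n) / k :=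
        div_le_div_of_nonneg_right h2 hk0.le
      calc bd k (x i) = 30 / q * (x i : ℝ) + 30 * ((x i : ℝ) * Real.log (x i) / k) := by
            unfold bd
            ring
        _ ≤ 30 / q * (x i : ℝ) +
            30 * (((x i : ℝ) * l - (x i : ℝ) * ((n : ℝ) - x i) / n) / k) := by
            linarith
        _ = _ := by ring
    refine (sum_le_sum h1).trans (le_of_eq ?_)
    rw [sum_sub_distrib, sum_add_distrib, ← mul_sum, ← mul_sum, ← mul_sum, hsumR, ← hs]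
    ring
  -- the two numerical estimates
  have hA : ((k : ℝ) + 1) / q ≤ (((k : ℝ) + 1) + 0.55) / r := by
    rw [div_le_div_iff₀ hq0 hr0, ← hr2]
    have h1 : (r ^ 2 * r) ^ 2 ≤ ((r ^ 2 + 0.55) * q) ^ 2 := by
      rw [mul_pow (r ^ 2 + 0.55), hq2, show (k : ℝ) = r ^ 2 - 1 by linarith]
      have h2 : 900 ≤ r ^ 2 := by nlinarith
      nlinarith [mul_nonneg (by linarith : (0 : ℝ) ≤ r ^ 2 - 900) (by positivity : 0 ≤ r ^ 2)]
    exact (pow_le_pow_iff_left₀ (by positivity) (by positivity) two_ne_zero).1 h1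
  have hB : ((k : ℝ) + 1) * l / k - ((k : ℝ) + 2) * l / (k + 1) = l / (k * (k + 1)) := by
    field_simp
    ring
  have hB2 : 30 * (l / (k * ((k : ℝ) + 1))) ≤ 1 / k := by
    rw [mul_div_assoc', div_le_div_iff₀ (by positivity) hk0]
    nlinarith
  have hC : 24 / ((k : ℝ) + 1) + 1 / k ≤ 1.5 / r := by
    have h2 : 900 ≤ r ^ 2 := by nlinarith
    have h3 : 24 / ((k : ℝ) + 1) ≤ 0.8 / r := by
      rw [← hr2, div_le_div_iff₀ (by positivity) hr0]
      nlinarith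
    have h4 : 1 / (k : ℝ) ≤ 0.7 / r := by
      rw [show (k : ℝ) = r ^ 2 - 1 by linarith, div_le_div_iff₀ (by linarith) hr0]
      nlinarith
    calc _ ≤ 0.8 / r + 0.7 / r := add_le_add h3 h4
      _ = 1.5 / r := by ring
  have hD : 26 * s / ((k : ℝ) + 1) ≤ 30 * s / k := by
    rw [div_le_div_iff₀ (by positivity) hk0]
    nlinarith [mul_nonneg hs0 hk0.le]
  -- the final computation
  have hK : ((k : ℝ) + 2) * K ≤ ((k : ℝ) + 2) * (30 * n * (1 / r + l / (k + 1))) := by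
    have e1 : 30 * (((k : ℝ) + 1) * n / q) ≤ 30 * n * ((((k : ℝ) + 1) + 0.55) / r) := by
      calc 30 * (((k : ℝ) + 1) * n / q) = 30 * n * (((k : ℝ) + 1) / q) := by ring
        _ ≤ _ := mul_le_mul_of_nonneg_left hA (by positivity)
    have e2 : 30 * (((k : ℝ) + 1) * n * l / k) ≤
        30 * n * (((k : ℝ) + 2) * l / (k + 1)) + n * (1 / k) := by
      calc 30 * (((k : ℝ) + 1) * n * l / k) = 30 * n * (((k : ℝ) + 2) * l / (k + 1)) +
            n * (30 * (((k : ℝ) + 1) * l / k - ((k : ℝ) + 2) * l / (k + 1))) := by ring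
        _ ≤ _ := by
          rw [hB]
          exact add_le_add le_rfl (mul_le_mul_of_nonneg_left hB2 hn0.le)
    have e3 : (n : ℝ) * (24 / ((k : ℝ) + 1) + 1 / k) ≤ n * (1.5 / r) :=
      mul_le_mul_of_nonneg_left hC hn0.le
    calc ((k : ℝ) + 2) * K ≤ ∑ i ∈ S, bd k (x i) + (24 * n + 26 * s) / (k + 1) + 12 * n / r := h
      _ ≤ 30 * (((k : ℝ) + 1) * n / q + (((k : ℝ) + 1) * n * l - s) / k) +
          (24 * n + 26 * s) / (k + 1) + 12 * n / r := by linarith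
      _ = 30 * (((k : ℝ) + 1) * n / q) + 30 * (((k : ℝ) + 1) * n * l / k) +
          n * (24 / ((k : ℝ) + 1)) + 12 * n / r + (26 * s / ((k : ℝ) + 1) - 30 * s / k) := by ring
      _ ≤ 30 * n * ((((k : ℝ) + 1) + 0.55) / r) +
          (30 * n * (((k : ℝ) + 2) * l / (k + 1)) + n * (1 / k)) +
          n * (24 / ((k : ℝ) + 1)) + 12 * n / r := by linarith
      _ = 30 * n * ((((k : ℝ) + 1) + 0.55) / r) + 30 * n * (((k : ℝ) + 2) * l / (k + 1)) +
          n * (24 / ((k : ℝ) + 1) + 1 / k) + 12 * n / r := by ring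
      _ ≤ 30 * n * ((((k : ℝ) + 1) + 0.55) / r) + 30 * n * (((k : ℝ) + 2) * l / (k + 1)) +
          n * (1.5 / r) + 12 * n / r := by linarith
      _ = ((k : ℝ) + 2) * (30 * n * (1 / r + l / (k + 1))) := by ring
  have hfin := le_of_mul_le_mul_left hK (by positivity)
  unfold bd
  push_cast
  exact hfin

end Pool.Agent.Helper13.TSD
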