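import Mathlib
import Pool.Agent.Helper13.TSD.Defs

/-!
# TSD-EB1: removing one node
-/

namespace Pool.Agent.Helper13.TSD

open Finset Pool.Agent.Helper82.TotSep

variable {V : Type*} {G : SimpleGraph V} {d : ℕ} {Λ : Type*} {L : FaceData G d}

private lemma exists_label {M : Finset V} {lab : V → Λ} {F : Finset V}
    (h2 : 2 ≤ (labs M lab F).card) {w : V} (h1 : (eqSeen L M lab F w).card ≤ 1) :
    ∃ c : Λ, ∀ a ∈ eqSeen L M lab F w, a = c := by
  rcases (eqSeen L M lab F w).eq_empty_or_nonempty with h | ⟨c, hc⟩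
  · obtain ⟨c, _⟩ := Finset.card_pos.mp (show 0 < (labs M lab F).card by omega)
    exact ⟨c, fun a ha => by rw [h] at ha; exact absurd ha (Finset.notMem_empty a)⟩
  · exact ⟨c, fun a ha => Finset.card_le_one.mp h1 a ha c hc⟩

open Classical in
/-- One step: if `w ∈ M`, `w ∈ F` sees at most one label in `F`, then `M.erase w` with a changed
label of `w` (the label which it sees, or any label of `F`) is again good, with at least the same
labels. -/
theorem erase_step {M : Finset V} {lab : V → Λ} {j : ℕ} {F : Finset V} (hF : IsFace L j F)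
    (hlab : LabOn G M lab F) (h2 : 2 ≤ (labs M lab F).card) {w : V} (hw : w ∈ M) (hwF : w ∈ F)
    (h1 : (eqSeen L M lab F w).card ≤ 1) :
    ∃ lab' : V → Λ, LabOn G (M.erase w) lab' F ∧ labs M lab F ⊆ labs (M.erase w) lab' F ∧
      (inner (M.erase w) F).card + 1 = (inner M F).card := by
  obtain ⟨c, hc⟩ := exists_label h2 h1
  have hne : ∀ x, x ≠ w → x ∉ M.erase w → x ∉ M := fun x hx h h' =>
    h (Finset.mem_erase.mpr ⟨hx, h'⟩)
  have hsee : ∀ y, G.Adj w y → y ∈ F → y ∉ M → lab y = c := fun y hwy hy hyM =>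
    hc _ (mem_eqSeen.mpr (eq_sees_of_adj hwy.symm hy hyM))
  refine ⟨Function.update lab w c, ?_, ?_, ?_⟩
  · intro x y hxy hx hy hxM hyM
    by_cases hxw : x = w
    · subst hxw
      have hyx : y ≠ x := hxy.ne'
      rw [Function.update_self, Function.update_of_ne hyx]
      exact (hsee y hxy hy (hne y hyx hyM)).symm
    · by_cases hyw : y = w
      · subst hyw
        rw [Function.update_self, Function.update_of_ne hxw]
        exact hsee x hxy.symm hx (hne x hxw hxM)
      · rw [Function.update_of_ne hxw, Function.update_of_ne hyw]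
        exact hlab x y hxy hx hy (hne x hxw hxM) (hne y hyw hyM)
  · intro a ha
    obtain ⟨x, hxF, hxM, rfl⟩ := mem_labs.mp ha
    have hxw : x ≠ w := fun h => hxM (h ▸ hw)
    exact mem_labs.mpr ⟨x, hxF, fun h => hxM (Finset.mem_of_mem_erase h),
      Function.update_of_ne hxw c lab⟩
  · have h : inner (M.erase w) F = (inner M F).erase w := by
      ext x
      rw [mem_inner, Finset.mem_erase, Finset.mem_erase, mem_inner]
      tauto
    rw [h]
    exact Finset.card_erase_add_one (mem_inner.mpr ⟨hwF, hw⟩)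

end Pool.Agent.Helper13.TSD
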