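import Mathlib
import Pool.Agent.Helper13.TSD.EB1

/-!
# TSD-EB2: removing all nodes which see at most one label
-/

namespace Pool.Agent.Helper13.TSD

open Finset Pool.Agent.Helper82.TotSep

variable {V : Type*} {G : SimpleGraph V} {d : ℕ} {Λ : Type*} {L : FaceData G d}

/-- Reduction: it is enough to treat the case where every node of `M` in `F` sees two labels. -/
theorem reduce {B : ℕ → ℝ} (hB : Monotone B) {k : ℕ} {F : Finset V} (hF : IsFace L (k + 1) F)
    (h : ∀ (M : Finset V) (lab : V → Λ), Ctx L M lab k F →
      ((labs M lab F).card : ℝ) ≤ B (inner M F).card) (M : Finset V) (lab : V → Λ)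
    (hlab : LabOn G M lab F) (h2 : 2 ≤ (labs M lab F).card) :
    ((labs M lab F).card : ℝ) ≤ B (inner M F).card := by
  classical
  induction hn : (inner M F).card using Nat.strong_induction_on generalizing M lab with
  | _ n ih =>
    by_cases hs : ∀ w ∈ M, w ∈ F → 2 ≤ (eqSeen L M lab F w).card
    · rw [← hn]
      exact h M lab ⟨hF, hlab, h2, hs⟩
    · push Not at hs
      obtain ⟨w, hw, hwF, h1⟩ := hs
      obtain ⟨lab', hlab', hsub, hcard⟩ := erase_step hF hlab h2 hw hwF (by omega)
      have hle := card_le_card hsub
      have h3 := ih (inner (M.erase w) F).card (by omega) (M.erase w) lab' hlab' (h2.trans hle) rfl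
      calc ((labs M lab F).card : ℝ) ≤ ((labs (M.erase w) lab' F).card : ℝ) := by exact_mod_cast hle
        _ ≤ B (inner (M.erase w) F).card := h3
        _ ≤ B n := hB (by omega)

end Pool.Agent.Helper13.TSD
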