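import Mathlib
import Pool.Agent.Helper13.TSD.FA

/-!
# TSD-FC2: nodes of M and facets
-/

namespace Pool.Agent.Helper13.TSD

open Finset Pool.Agent.Helper82.TotSep

variable {V : Type*} [Fintype V] {G : SimpleGraph V} {d : ℕ} {L : FaceData G d} {k : ℕ}
  {F : Finset V}

/-- Each node of `M` in `F` lies in `k + 1` facets. -/
theorem sum_inner (hF : IsFace L (k + 1) F) (M : Finset V) :
    ∑ H ∈ facets L k F, (inner M H).card = (k + 1) * (inner M F).card := by
  classical
  have h1 : ∀ H ∈ facets L k F, (inner M H).card =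
      ∑ w ∈ inner M F, if w ∈ H then 1 else 0 := by
    intro H hH
    rw [← Finset.card_filter]
    congr 1
    ext w
    rw [mem_inner, Finset.mem_filter, mem_inner]
    exact ⟨fun h => ⟨⟨(mem_facets.mp hH).1 h.1, h.2⟩, h.1⟩, fun h => ⟨h.2, h.1.2⟩⟩
  have h2 : ∀ w ∈ inner M F, (∑ H ∈ facets L k F, if w ∈ H then 1 else 0) = k + 1 := by
    intro w hw
    rw [← Finset.card_filter, ← card_thr hF (mem_inner.mp hw).1]
    congr 1
  rw [Finset.sum_congr rfl h1, Finset.sum_comm, Finset.sum_congr rfl h2, Finset.sum_const,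
    smul_eq_mul, mul_comm]

end Pool.Agent.Helper13.TSD
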