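import Mathlib
import Pool.Agent.Helper13.TSD.DD2
import Pool.Agent.Helper13.TSD.EA2
import Pool.Agent.Helper13.TSD.EB2
import Pool.Agent.Helper13.TSD.FC2

/-!
# TSD-EC1: the upper bound in faces
-/

namespace Pool.Agent.Helper13.TSD

open Finset Pool.Agent.Helper82.TotSep

variable {V : Type*} [Fintype V] {G : SimpleGraph V} {d : ℕ} {Λ : Type*} {L : FaceData G d}

omit [Fintype V] in
/-- A face of dimension zero has at most one label. -/
private lemma ec1_zero {F : Finset V} (hF : IsFace L 0 F) (M : Finset V) (lab : V → Λ) :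
    (labs M lab F).card ≤ 1 := by
  rw [Finset.card_le_one]
  intro a ha b hb
  obtain ⟨x, hx, _, hxa⟩ := mem_labs.mp ha
  obtain ⟨y, hy, _, hyb⟩ := mem_labs.mp hb
  have h1 := hF.supp_subset hx hy
  have h2 := hF.card_dir hx
  rw [Finset.card_eq_zero] at h2
  rw [h2, Finset.subset_empty] at h1
  have h3 := L.eq_self x y h1
  rw [← hxa, ← hyb, h3]

/-- The step of the induction. -/
private lemma ec1_step {k : ℕ} (ih : ∀ (F : Finset V), IsFace L k F → ∀ (M : Finset V)
    (lab : V → Λ), LabOn G M lab F → 2 ≤ (labs M lab F).card →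
      ((labs M lab F).card : ℝ) ≤ bd k (inner M F).card) {F : Finset V}
    (M : Finset V) (lab : V → Λ) (h : Ctx L M lab k F) :
    ((labs M lab F).card : ℝ) ≤ bd (k + 1) (inner M F).card := by
  have h1 := card_labs_le h.labOn h.face h.two
  have h2 := h.two
  have hn : 1 ≤ (inner M F).card := by omega
  have h1' : ((labs M lab F).card : ℝ) ≤ (inner M F).card := by exact_mod_cast h1
  have hcast : ((k + 1 : ℕ) : ℝ) = (k : ℝ) + 1 := by push_cast; ring
  by_cases hs : √((k : ℝ) + 1) ≤ 30
  · refine h1'.trans (le_bd (by omega) (Or.inl ?_))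
    rw [hcast]
    exact hs
  by_cases hl : (k : ℝ) + 1 ≤ 30 * Real.log (inner M F).card
  · refine h1'.trans (le_bd (by omega) (Or.inr ?_))
    rw [hcast]
    exact hl
  push Not at hs hl
  have hk : 8 ≤ k + 1 := by
    by_contra hk
    have h3 : (k : ℝ) + 1 ≤ 900 := by
      have h4 : k + 1 ≤ 900 := by omega
      exact_mod_cast h4
    have h4 : √((k : ℝ) + 1) ≤ 30 := by
      rw [Real.sqrt_le_left (by norm_num)]
      norm_num
      linarith
    linarith
  have hm := main_ineq h hk
  have hsum : ∑ H ∈ rfc L M lab k F, ((labs M lab H).card : ℝ) ≤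
      ∑ H ∈ facets L k F, bd k (inner M H).card := by
    calc ∑ H ∈ rfc L M lab k F, ((labs M lab H).card : ℝ)
        ≤ ∑ H ∈ rfc L M lab k F, bd k (inner M H).card := by
          refine Finset.sum_le_sum fun H hH => ?_
          rw [mem_rfc, mem_facets] at hH
          exact ih H hH.1.2 M lab (h.labOn.mono hH.1.1) hH.2
      _ ≤ ∑ H ∈ facets L k F, bd k (inner M H).card := by
          refine Finset.sum_le_sum_of_subset_of_nonneg ?_ fun H _ _ => bd_nonneg _ _
          intro H hH
          exact (mem_rfc.mp hH).1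
  refine closing (facets L k F) (fun H => (inner M H).card) hn (fun H hH => ?_)
    (sum_inner h.face M) (s := sg L M k F) rfl hs hl ?_
  · refine Finset.card_le_card fun x hx => ?_
    rw [mem_inner] at hx ⊢
    exact ⟨(mem_facets.mp hH).1 hx.1, hx.2⟩
  · linarith

/-- The upper bound in faces, by induction on the dimension. -/
theorem face_bound (j : ℕ) : ∀ (F : Finset V), IsFace L j F → ∀ (M : Finset V) (lab : V → Λ),
    LabOn G M lab F → 2 ≤ (labs M lab F).card →
      ((labs M lab F).card : ℝ) ≤ bd j (inner M F).card := by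
  induction j with
  | zero =>
    intro F hF M lab _ h2
    have h3 := ec1_zero hF M lab
    omega
  | succ k ih =>
    intro F hF M lab hlab h2
    exact reduce (bd_mono (k + 1)) hF (fun M lab h => ec1_step ih M lab h) M lab hlab h2

end Pool.Agent.Helper13.TSD
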